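import Pool.Agent.FS.AllLarge.Lf

/-!
Relative corners and the pattern `0, a, b, 2b` in a dense set of primes.
-/

open Finset
open scoped Classical

noncomputable section

namespace Pool.Agent.FS.AllLarge

open Pool.Agent.Lib.MP_4b8564_nt Pool.Agent.Lib.MP_4b8564_nt.GT

theorem b5_av_surj {A B : Type} [Fintype A] [Fintype B] [AddCommGroup A] [AddCommGroup B]
    (L : A → B) (hadd : ∀ x x', L (x + x') = L x + L x') (hs : Function.Surjective L)
    (g : B → ℝ) : av (fun x => g (L x)) = av g := by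
  have h1 : ∀ y, av (fun x => g (L x + y)) = av fun x => g (L x) := fun y => by
    obtain ⟨x₀, rfl⟩ := hs y
    rw [← av_equiv (Equiv.addRight x₀) fun x => g (L x)]
    exact av_congr fun x => by simp [hadd]
  have h2 : ∀ x, av (fun y => g (L x + y)) = av g := fun x =>
    av_equiv (Equiv.addLeft (L x)) g
  have h3 := av_comm fun (x : A) (y : B) => g (L x + y)
  simp only [h1, h2, av_const] at h3
  exact h3.symm

theorem b5_lin_add {ι : Type} [Fintype ι] (M : ℕ) (A : Fin 3 → ι → ℤ) (x x' : ι → ZMod M) :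
    lin M A (x + x') = lin M A x + lin M A x' := by
  funext i
  simp [lin, mul_add, sum_add_distrib]

theorem b5_lin_update {ι : Type} [Fintype ι] [DecidableEq ι] (M : ℕ) (A : Fin 3 → ι → ℤ)
    (x : ι → ZMod M) (k : ι) (a : ZMod M) :
    lin M A (Function.update x k a) = lin M A x + fun i => (a - x k) * (A i k : ZMod M) := by
  have h : Function.update x k a = x + Pi.single k (a - x k) := by
    funext l
    by_cases hl : l = k
    · subst hl; simp
    · simp [hl]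
  rw [h, b5_lin_add]
  congr 1
  funext i
  simp only [lin]
  rw [sum_eq_single k]
  · simp [mul_comm]
  · intro l _ hl; simp [hl]
  · simp

theorem b5_A7_surj (M : ℕ) : Function.Surjective (lin M A7) := fun y => by
  refine ⟨![0, y 0, y 1, y 2, 0, 0, 0], ?_⟩
  funext i
  fin_cases i <;> simp [lin, A7, Fin.sum_univ_succ]

/-- products of functions invariant along one of the six directions -/
def b5_F (M : ℕ) : Set ((Fin 3 → ZMod M) → ℝ) :=
  {φ | ∃ u : Fin 7 → (Fin 3 → ZMod M) → ℝ,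
    (∀ k, k ≠ 0 → ∀ y s, u k (y + fun i => s * (A7 i k : ZMod M)) = u k y) ∧
    (∀ k y, 0 ≤ u k y ∧ u k y ≤ 1) ∧ ∀ y, φ y = ∏ k ∈ univ.erase 0, u k y}

theorem b5_one (M : ℕ) : (fun _ => 1) ∈ b5_F M :=
  ⟨fun _ _ => 1, fun _ _ _ _ => rfl, fun _ _ => ⟨zero_le_one, le_rfl⟩, fun _ => by simp⟩

theorem b5_mul {M : ℕ} {φ φ' : (Fin 3 → ZMod M) → ℝ} (h : φ ∈ b5_F M) (h' : φ' ∈ b5_F M) :
    (fun y => φ y * φ' y) ∈ b5_F M := by
  obtain ⟨u, hu1, hu2, hu3⟩ := h
  obtain ⟨v, hv1, hv2, hv3⟩ := h'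
  refine ⟨fun k y => u k y * v k y, fun k hk y s => ?_, fun k y => ?_, fun y => ?_⟩
  · simp only [hu1 k hk y s, hv1 k hk y s]
  · exact ⟨mul_nonneg (hu2 k y).1 (hv2 k y).1,
      mul_le_one₀ (hu2 k y).2 (hv2 k y).1 (hv2 k y).2⟩
  · simp only [hu3, hv3, prod_mul_distrib]

theorem b5_single {M : ℕ} (w : (Fin 3 → ZMod M) → ℝ) (k : Fin 7) (hk : k ≠ 0)
    (h1 : ∀ y s, w (y + fun i => s * (A7 i k : ZMod M)) = w y) (h2 : ∀ y, 0 ≤ w y ∧ w y ≤ 1) :
    w ∈ b5_F M := by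
  refine ⟨fun l y => if l = k then w y else 1, fun l _ y s => ?_, fun l y => ?_, fun y => ?_⟩
  · by_cases hl : l = k
    · subst hl; simp only [if_true, h1]
    · simp only [hl, if_false]
  · by_cases hl : l = k
    · simp only [hl, if_true]; exact h2 y
    · simp only [hl, if_false]; exact ⟨zero_le_one, le_rfl⟩
  · rw [prod_ite_eq']
    simp [hk]

theorem b5_prod {M : ℕ} {κ : Type} (s : Finset κ) (w : κ → (Fin 3 → ZMod M) → ℝ)
    (h : ∀ i ∈ s, w i ∈ b5_F M) : (fun y => ∏ i ∈ s, w i y) ∈ b5_F M := by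
  induction s using Finset.induction_on with
  | empty => simpa using b5_one M
  | insert a s ha ih =>
    simp only [prod_insert ha]
    exact b5_mul (h a (mem_insert_self _ _)) (ih fun i hi => h i (mem_insert_of_mem hi))

/-- the inverse of the map `x ↦ (lin (A4 j) x, x j)` -/
def b5_S (M : ℕ) (j : Fin 4) (z : ZMod M × (Fin 3 → ZMod M)) : Fin 4 → ZMod M :=
  ![![z.1, z.2 0, z.2 1, z.2 2], ![z.2 0 + z.2 1 + z.2 2, z.1, z.2 1, z.2 2],
    ![z.2 0 + z.2 1 + z.2 2, z.2 0, z.1, z.2 2], ![z.2 0 + z.2 1 + z.2 2, z.2 0, z.2 1, z.1]] j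

/-- the direction that belongs to the coordinate `i` at the place `j` -/
def b5_k : Fin 4 → Fin 4 → Fin 7 :=
  ![![1, 1, 2, 3], ![1, 1, 4, 5], ![2, 4, 1, 6], ![3, 5, 6, 1]]

theorem b5_A4 : ∀ (j : Fin 4) (i : Fin 3) (k : Fin 4), A4 j i k =
    (![![![0, 1, 0, 0], ![0, 0, 1, 0], ![0, 0, 0, 1]], ![![1, 0, -1, -1], ![0, 0, 1, 0], ![0, 0, 0, 1]],
      ![![0, 1, 0, 0], ![1, -1, 0, -1], ![0, 0, 0, 1]],
      ![![0, 1, 0, 0], ![0, 0, 1, 0], ![1, -1, -1, 0]]] : Fin 4 → Fin 3 → Fin 4 → ℤ) j i k := by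
  decide

theorem b5_S_add (M : ℕ) (j : Fin 4) (z z' : ZMod M × (Fin 3 → ZMod M)) :
    b5_S M j (z + z') = b5_S M j z + b5_S M j z' := by
  funext k
  fin_cases j <;> fin_cases k <;> simp [b5_S] <;> ring

theorem b5_S_surj (M : ℕ) (j : Fin 4) : Function.Surjective (b5_S M j) := fun x => by
  fin_cases j
  · refine ⟨(x 0, ![x 1, x 2, x 3]), ?_⟩
    funext k; fin_cases k <;> simp [b5_S]
  · refine ⟨(x 1, ![x 0 - x 2 - x 3, x 2, x 3]), ?_⟩
    funext k; fin_cases k <;> simp [b5_S] <;> ring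
  · refine ⟨(x 2, ![x 1, x 0 - x 1 - x 3, x 3]), ?_⟩
    funext k; fin_cases k <;> simp [b5_S] <;> ring
  · refine ⟨(x 3, ![x 1, x 2, x 0 - x 1 - x 2]), ?_⟩
    funext k; fin_cases k <;> simp [b5_S]

theorem b5_lin_S (M : ℕ) (j : Fin 4) (z : ZMod M × (Fin 3 → ZMod M)) :
    lin M (A4 j) (b5_S M j z) = z.2 := by
  funext i
  simp only [lin, b5_A4, Fin.sum_univ_four]
  fin_cases j <;> fin_cases i <;> simp [b5_S] <;> ring

theorem b5_S_dir (M : ℕ) (j i k : Fin 4) (hi : i ≠ j) (hk : k ≠ i) (t s : ZMod M)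
    (y : Fin 3 → ZMod M) :
    b5_S M j (t, y + fun a => s * (A7 a (b5_k j i) : ZMod M)) k = b5_S M j (t, y) k := by
  fin_cases j <;> fin_cases i <;> fin_cases k <;>
    first
      | exact absurd rfl hi
      | exact absurd rfl hk
      | (simp [b5_S, b5_k, A7]; done)
      | (simp [b5_S, b5_k, A7]; ring)

theorem dense3 (ε : ℝ) (hε : 0 < ε) : ∃ η : ℝ, 0 < η ∧ ∀ (M : ℕ) [NeZero M]
    (ν f : (Fin 3 → ZMod M) → ℝ), (∀ y, 0 ≤ f y ∧ f y ≤ ν y) →
      Cut (0 : Fin 7) (fun x : Fin 7 → ZMod M => ν (lin M A7 x) - 1) η →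
      ∃ f' : (Fin 3 → ZMod M) → ℝ, (∀ y, 0 ≤ f' y ∧ f' y ≤ 1) ∧ |av f - av f'| ≤ ε ∧
        ∀ j : Fin 4,
          Cut j (fun x : Fin 4 → ZMod M => f (lin M (A4 j) x) - f' (lin M (A4 j) x)) ε := by
  obtain ⟨η, hη, H⟩ := dense_model ε hε
  refine ⟨η, hη, fun M _ ν f hf hc => ?_⟩
  have g1 : ∀ φ ∈ b5_F M, ∀ x, |φ x| ≤ 1 := by
    rintro φ ⟨u, -, hu2, hu3⟩ x
    rw [hu3, abs_of_nonneg (prod_nonneg fun k _ => (hu2 k x).1)]
    exact prod_le_one (fun k _ => (hu2 k x).1) fun k _ => (hu2 k x).2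
  have g3 : ∀ φ ∈ b5_F M, |av fun x => (ν x - 1) * φ x| ≤ η := by
    rintro φ ⟨u, hu1, hu2, hu3⟩
    rw [← b5_av_surj (lin M A7) (b5_lin_add M A7) (b5_A7_surj M)]
    simp only [hu3]
    refine hc (fun k x => u k (lin M A7 x)) (fun k hk x a => ?_) fun k x => hu2 k _
    simp only [b5_lin_update]
    exact hu1 k hk _ _
  obtain ⟨f', hf', hF⟩ := H (Fin 3 → ZMod M) (b5_F M) (b5_one M) g1
    (fun φ h φ' h' g t hg => hg _ (b5_mul h h')) ν f hf g3
  refine ⟨f', hf', ?_, fun j u hu1 hu2 => ?_⟩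
  · have := hF _ (b5_one M)
    simpa only [mul_one, av_sub] using this
  · rw [← b5_av_surj (b5_S M j) (b5_S_add M j) (b5_S_surj M j), av_prod]
    refine abs_av_le_of_le fun t => ?_
    simp only [b5_lin_S]
    refine hF (fun y => ∏ i ∈ univ.erase j, u i (b5_S M j (t, y))) ?_
    refine b5_prod _ (fun i y => u i (b5_S M j (t, y))) fun i hi => ?_
    have hij : i ≠ j := (mem_erase.1 hi).1
    refine b5_single _ (b5_k j i) ((by decide : ∀ j i, b5_k j i ≠ 0) j i) (fun y s => ?_)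
      fun y => hu2 i _
    rw [← hu1 i hij (b5_S M j (t, y))
      (b5_S M j (t, y + fun a => s * (A7 a (b5_k j i) : ZMod M)) i)]
    congr 1
    funext k
    by_cases hk : k = i
    · subst hk; simp
    · rw [Function.update_of_ne hk]
      exact b5_S_dir M j i k hij hk t s y

/-- the embedding of words into the cube -/
def b6_emb {n : ℕ} (M : ℕ) (x : Fin n → Fin 4) : Fin 3 → ZMod M :=
  fun i => ∑ l : Fin n, if x l = i.succ then (2 : ZMod M) ^ (l : ℕ) else 0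

/-- the step of a line -/
def b6_d {n : ℕ} (w : Fin n → Option (Fin 4)) : ℕ :=
  ∑ l : Fin n, if w l = none then 2 ^ (l : ℕ) else 0

theorem b6_line {n : ℕ} (M : ℕ) (w : Fin n → Option (Fin 4)) (j : Fin 3) :
    b6_emb M (sub w j.succ) = b6_emb M (sub w 0) + Pi.single j ((b6_d w : ℕ) : ZMod M) := by
  funext i
  by_cases hij : i = j
  · subst hij
    rw [Pi.add_apply, Pi.single_eq_same]
    simp only [b6_emb, b6_d, Nat.cast_sum, ← sum_add_distrib]
    refine sum_congr rfl fun l _ => ?_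
    cases h : w l <;> simp [sub, h, (Fin.succ_ne_zero i).symm]
  · rw [Pi.add_apply, Pi.single_eq_of_ne hij, add_zero]
    simp only [b6_emb]
    refine sum_congr rfl fun l _ => ?_
    have hji : j ≠ i := fun e => hij e.symm
    cases h : w l <;> simp [sub, h, (Fin.succ_ne_zero i).symm, hji]

theorem b6_d_pos {n : ℕ} (w : Fin n → Option (Fin 4)) (hw : HasVar w) : 0 < b6_d w := by
  obtain ⟨i0, hi⟩ := hw
  refine lt_of_lt_of_le ?_ (single_le_sum (f := fun l : Fin n =>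
    if w l = none then 2 ^ (l : ℕ) else 0) (fun _ _ => Nat.zero_le _) (mem_univ i0))
  simp [hi]

theorem b6_d_le {n : ℕ} (w : Fin n → Option (Fin 4)) : b6_d w ≤ ∑ l : Fin n, 2 ^ (l : ℕ) :=
  sum_le_sum fun l _ => by split_ifs <;> simp

/-- the affine change of variables -/
def b6_aff {F : Type} [Field F] (a : Fin 3 → F) (e : F) (he : e ≠ 0) :
    (Fin 3 → F) × F ≃ (Fin 3 → F) × F where
  toFun p := (p.1 + p.2 • a, e * p.2)
  invFun p := (p.1 - (e⁻¹ * p.2) • a, e⁻¹ * p.2)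
  left_inv p := by simp [he]
  right_inv p := by simp [he]

theorem b6_count (n : ℕ) (ε : ℝ) (hε : 0 < ε)
    (hn : ∀ A : (Fin n → Fin 4) → Prop, ε ≤ dn A → HasLine A)
    (M : ℕ) [NeZero M] (hM : M.Prime) (hnM : ∑ l : Fin n, 2 ^ (l : ℕ) + 1 ≤ M)
    (L : (Fin 3 → ZMod M) → Prop) (hL : 2 * ε ≤ dn L) :
    ε / (Fintype.card (Fin n → Option (Fin 4)) : ℝ) ≤
      dn fun z : (Fin 3 → ZMod M) × ZMod M => L z.1 ∧ ∀ i, L (z.1 + Pi.single i z.2) := by
  have := Fact.mk hM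
  have hc : (0 : ℝ) < (Fintype.card (Fin n → Option (Fin 4)) : ℝ) := by
    exact_mod_cast Fintype.card_pos
  let F : (Fin 3 → ZMod M) × ZMod M → ℝ :=
    fun p => dn fun x : Fin n → Fin 4 => L (p.1 + p.2 • b6_emb M x)
  have h1 : av F = dn L := by
    refine (dn_comm fun (p : (Fin 3 → ZMod M) × ZMod M) (x : Fin n → Fin 4) =>
      L (p.1 + p.2 • b6_emb M x)).trans ?_
    refine (av_congr fun x => ?_).trans (av_const _)
    rw [dn_prod, ← dn_comm (fun (d : ZMod M) (y : Fin 3 → ZMod M) => L (y + d • b6_emb M x))]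
    refine (av_congr fun d => ?_).trans (av_const _)
    exact dn_equiv (Equiv.addRight (d • b6_emb M x)) L
  have h2 := markov F 1 ε (fun p => dn_le_one _) hε.le
  rw [h1] at h2
  have h3 : ε ≤ dn fun p => ε ≤ F p := by linarith
  obtain ⟨w, hs⟩ := pigeon (fun p => ε ≤ F p)
    (fun (w : Fin n → Option (Fin 4)) (p : (Fin 3 → ZMod M) × ZMod M) => HasVar w ∧
      ∀ a, L (p.1 + p.2 • b6_emb M (sub w a)))
    (fun p hp => by
      obtain ⟨w, hw, h⟩ := hn _ hp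
      exact ⟨w, hw, h⟩)
  have h4 : ε / (Fintype.card (Fin n → Option (Fin 4)) : ℝ) ≤ (dn fun p => ε ≤ F p) /
      Fintype.card (Fin n → Option (Fin 4)) := by gcongr
  have h5 := h4.trans hs
  obtain ⟨p, hp, -⟩ := exists_of_dn_pos (lt_of_lt_of_le (by positivity) h5)
  have hne : ((b6_d w : ℕ) : ZMod M) ≠ 0 := by
    rw [Ne, ZMod.natCast_eq_zero_iff]
    exact Nat.not_dvd_of_pos_of_lt (b6_d_pos w hp) (by have := b6_d_le w; omega)
  refine h5.trans (le_trans ?_ (dn_equiv (b6_aff (b6_emb M (sub w 0)) _ hne) _).le)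
  refine dn_mono fun q hq => ⟨hq.2 0, fun i => ?_⟩
  have h := hq.2 i.succ
  rw [b6_line, smul_add, ← add_assoc, ← Pi.single_smul, smul_eq_mul, mul_comm] at h
  exact h

theorem cornersV (δ : ℝ) (hδ : 0 < δ) : ∃ c : ℝ, 0 < c ∧ ∃ M₀ : ℕ, ∀ (M : ℕ) [NeZero M],
    M.Prime → M₀ ≤ M → ∀ g : (Fin 3 → ZMod M) → ℝ, (∀ y, 0 ≤ g y) → (∀ y, g y ≤ 1) →
      δ ≤ av g → c ≤ lamC M g := by
  obtain ⟨n, hn⟩ := dhj 3 (δ / 4) (by positivity)
  have hc : (0 : ℝ) < (Fintype.card (Fin n → Option (Fin 4)) : ℝ) := by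
    exact_mod_cast Fintype.card_pos
  refine ⟨(δ / 2) ^ 4 * (δ / 4 / (Fintype.card (Fin n → Option (Fin 4)) : ℝ)), by positivity,
    ∑ l : Fin n, 2 ^ (l : ℕ) + 1, fun M _ hM hnM g h0 h1 hg => ?_⟩
  have h2 := markov g 1 (δ / 2) h1 (by positivity)
  have h3 := b6_count n (δ / 4) (by positivity) hn M hM hnM (fun x => δ / 2 ≤ g x)
    (by linarith)
  refine (mul_le_mul_of_nonneg_left h3 (by positivity)).trans ?_
  rw [lamC, dn, ← av_const_mul]
  refine av_mono fun z => ?_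
  split_ifs with h
  · rw [mul_one]
    calc (δ / 2) ^ 4 = δ / 2 * ∏ _j : Fin 3, δ / 2 := by
          rw [prod_const, card_univ, Fintype.card_fin]; ring
      _ ≤ _ := mul_le_mul h.1 (prod_le_prod (fun _ _ => by positivity) fun j _ => h.2 j)
          (by positivity) (h0 _)
  · rw [mul_zero]
    exact mul_nonneg (h0 _) (prod_nonneg fun _ _ => h0 _)

theorem b7_update {ι : Type} [Fintype ι] [DecidableEq ι] (M : ℕ) (A : Fin 3 → ι → ℤ) (j : ι)
    (h : ∀ i, A i j = 0) (x : ι → ZMod M) (a : ZMod M) :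
    lin M A (Function.update x j a) = lin M A x := by
  funext i
  refine Finset.sum_congr rfl fun k _ => ?_
  by_cases hk : k = j
  · rw [hk, h i, Int.cast_zero, zero_mul, zero_mul]
  · rw [Function.update_of_ne hk]

theorem b7_A4 (j : Fin 4) (i : Fin 3) : A4 j i j = 0 := by
  unfold A4
  by_cases h : j = i.succ
  · rw [if_pos h, if_neg (h ▸ Fin.succ_ne_zero i), if_pos rfl]
  · rw [if_neg h, if_neg h]

theorem b7_indep (M : ℕ) (f : (Fin 3 → ZMod M) → ℝ) (j : Fin 4) :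
    Indep j (fun x : Fin 4 → ZMod M => f (lin M (A4 j) x)) :=
  fun x a => congrArg f (b7_update M (A4 j) j (b7_A4 j) x a)

theorem b7_A7 (i : Fin 3) : A7 i 0 = 0 := by
  fin_cases i <;> rfl

theorem b7_lin0 (M : ℕ) (x : Fin 4 → ZMod M) : lin M (A4 0) x = fun i => x i.succ := by
  funext i
  fin_cases i <;> simp [lin, A4, Fin.sum_univ_four]

theorem b7_linS (M : ℕ) (x : Fin 4 → ZMod M) (i : Fin 3) :
    lin M (A4 i.succ) x = (fun i : Fin 3 => x i.succ) + Pi.single i (x 0 - x 1 - x 2 - x 3) := by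
  funext k
  fin_cases i <;> fin_cases k <;> simp [lin, A4, Fin.sum_univ_four] <;> ring

theorem b7_av (M : ℕ) [NeZero M] (f : (Fin 3 → ZMod M) → ℝ) :
    av (fun x : Fin 4 → ZMod M => ∏ j, f (lin M (A4 j) x)) = lamC M f := by
  let e : (Fin 4 → ZMod M) ≃ (Fin 3 → ZMod M) × ZMod M :=
    { toFun := fun x => (fun i => x i.succ, x 0 - x 1 - x 2 - x 3)
      invFun := fun z => ![z.2 + z.1 0 + z.1 1 + z.1 2, z.1 0, z.1 1, z.1 2]
      left_inv := fun x => by
        funext k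
        fin_cases k <;> simp
        ring
      right_inv := fun z => by
        refine Prod.ext ?_ ?_
        · funext k
          fin_cases k <;> simp
        · simp
          ring }
  rw [lamC, ← av_equiv e]
  refine av_congr fun x => ?_
  rw [Fin.prod_univ_succ, b7_lin0]
  exact congrArg _ (Finset.prod_congr rfl fun i _ => congrArg f (b7_linS M x i))

theorem relCor (δ : ℝ) (hδ : 0 < δ) : ∃ η : ℝ, 0 < η ∧ ∃ c : ℝ, 0 < c ∧ ∃ M₀ : ℕ,
    ∀ (M : ℕ) [NeZero M], M.Prime → M₀ ≤ M → ∀ ν f : (Fin 3 → ZMod M) → ℝ,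
      (∀ y, 0 ≤ f y ∧ f y ≤ ν y) → δ ≤ av f →
      LF (fun (j : Fin 4) (x : Fin 4 → ZMod M) => ν (lin M (A4 j) x)) η →
      LF (fun (j : Fin 7) (x : Fin 7 → ZMod M) => if j = 0 then ν (lin M A7 x) else 1) η →
      c ≤ lamC M f := by
  obtain ⟨c₀, hc₀, N₁, hV⟩ := cornersV (δ / 2) (by positivity)
  obtain ⟨η₁, hη₁, hC⟩ := counting (Fin 4) (c₀ / 2) (by positivity)
  obtain ⟨η₂, hη₂, hD⟩ := dense3 (min η₁ (δ / 2)) (by positivity)
  obtain ⟨η₃, hη₃, hS⟩ := RelSzAux.cut_of_lf (Fin 7) η₂ hη₂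
  refine ⟨min η₁ η₃, by positivity, c₀ / 2, by positivity, N₁,
    fun M _ hM hM₀ ν f hf hδf hL4 hL7 => ?_⟩
  have hcut := hS (ZMod M)
    (fun (j : Fin 7) (x : Fin 7 → ZMod M) => if j = 0 then ν (lin M A7 x) else 1)
    (fun j x a => by
      by_cases h : j = 0
      · subst h
        simp only [if_true, b7_update M A7 0 b7_A7 x a]
      · simp only [if_neg h])
    (fun j x => by
      by_cases h : j = 0
      · simp only [if_pos h]
        exact (hf _).1.trans (hf _).2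
      · simp only [if_neg h]
        exact zero_le_one)
    (hL7.mono (min_le_right _ _)) 0
  simp only [if_true] at hcut
  obtain ⟨f', hf', hav, hc⟩ := hD M ν f hf hcut
  have h1 : δ / 2 ≤ av f' := by
    have := (abs_le.1 hav).2
    have := min_le_right η₁ (δ / 2)
    linarith
  have h2 := hV M hM hM₀ f' (fun x => (hf' x).1) (fun x => (hf' x).2) h1
  have h3 := hC (ZMod M) (fun (j : Fin 4) (x : Fin 4 → ZMod M) => ν (lin M (A4 j) x))
    (fun (j : Fin 4) (x : Fin 4 → ZMod M) => f (lin M (A4 j) x))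
    (fun (j : Fin 4) (x : Fin 4 → ZMod M) => f' (lin M (A4 j) x))
    (b7_indep M ν) (b7_indep M f) (b7_indep M f')
    (fun j x => hf _) (fun j x => hf' _) (hL4.mono (min_le_left _ _))
    (fun j => (hc j).mono (min_le_left _ _))
  rw [b7_av M f, b7_av M f'] at h3
  have := (abs_le.1 h3).1
  linarith

theorem b16_best {X : Type} (B : Finset X) (φ : X → ℕ) (A : Finset ℕ) (N : ℕ) (hN : 0 < N)
    (hA : ∀ n ∈ A, n < N ∧ ∀ y, φ y ≤ n) :
    ∃ h : ℕ, A.card * B.card ≤ N * (B.filter fun y => h + φ y ∈ A).card := by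
  have h1 : ∀ y ∈ B, A.card ≤ ((range N).filter fun h => h + φ y ∈ A).card := by
    intro y _
    refine card_le_card_of_injOn (fun n => n - φ y) (fun n hn => ?_) fun n hn n' hn' e => ?_
    · have h1 := hA n (mem_coe.1 hn)
      have h2 := h1.2 y
      refine mem_coe.2 (mem_filter.2 ⟨mem_range.2 ((Nat.sub_le _ _).trans_lt h1.1), ?_⟩)
      rw [Nat.sub_add_cancel h2]
      exact mem_coe.1 hn
    · have h2 := (hA n (mem_coe.1 hn)).2 y
      have h3 := (hA n' (mem_coe.1 hn')).2 y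
      have e' : n - φ y = n' - φ y := e
      omega
  have h2 : ∑ h ∈ range N, (B.filter fun y => h + φ y ∈ A).card =
      ∑ y ∈ B, ((range N).filter fun h => h + φ y ∈ A).card := by
    simp only [card_filter]
    exact sum_comm
  have h3 : ∑ _h ∈ range N, A.card * B.card ≤
      ∑ h ∈ range N, N * (B.filter fun y => h + φ y ∈ A).card := by
    rw [← mul_sum, ← mul_sum, h2, sum_const, card_range, smul_eq_mul, mul_left_comm]
    refine Nat.mul_le_mul_left _ ?_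
    rw [mul_comm, ← smul_eq_mul, ← sum_const]
    exact sum_le_sum h1
  obtain ⟨h, -, hh⟩ := exists_le_of_sum_le (nonempty_range_iff.2 hN.ne') h3
  exact ⟨h, hh⟩

theorem b16_box (M : ℕ) [NeZero M] :
    M ^ 3 ≤ 8 * (univ.filter fun y : Fin 3 → ZMod M => ∀ i, 2 * (y i).val < M).card := by
  have h1 : (range ((M + 1) / 2)).card ≤ (univ.filter fun x : ZMod M => 2 * x.val < M).card := by
    refine card_le_card_of_injOn (fun n => (n : ZMod M)) (fun n hn => ?_) fun n hn n' hn' e => ?_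
    · have h := mem_range.1 (mem_coe.1 hn)
      refine mem_coe.2 (mem_filter.2 ⟨mem_univ _, ?_⟩)
      rw [ZMod.val_natCast_of_lt (by omega)]
      omega
    · have h := mem_range.1 (mem_coe.1 hn)
      have h' := mem_range.1 (mem_coe.1 hn')
      have e' := congrArg ZMod.val e
      rwa [ZMod.val_natCast_of_lt (by omega), ZMod.val_natCast_of_lt (by omega)] at e'
  rw [card_range] at h1
  have h2 : (univ.filter fun y : Fin 3 → ZMod M => ∀ i, 2 * (y i).val < M) =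
      Fintype.piFinset fun _ : Fin 3 => univ.filter fun x : ZMod M => 2 * x.val < M := by
    ext y
    simp only [mem_filter, mem_univ, true_and, Fintype.mem_piFinset]
  rw [h2, Fintype.card_piFinset, prod_const, card_univ, Fintype.card_fin,
    show 8 = 2 ^ 3 from rfl, ← mul_pow]
  exact Nat.pow_le_pow_left (by omega) 3

theorem b16_eq {M : ℕ} [NeZero M] (x y d : ZMod M) (h1 : 2 * x.val < M) (h2 : 2 * (x + d).val < M)
    (h3 : 2 * y.val < M) (h4 : 2 * (y + d).val < M) :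
    (x + d).val + y.val = (y + d).val + x.val := by
  have h : (((x + d).val + y.val : ℕ) : ZMod M) = (((y + d).val + x.val : ℕ) : ZMod M) := by
    simp only [Nat.cast_add, ZMod.natCast_zmod_val]
    ring
  have h' := congrArg ZMod.val h
  rwa [ZMod.val_natCast_of_lt (by omega), ZMod.val_natCast_of_lt (by omega)] at h'

theorem b16_phi (M a e : ℕ) (y : Fin 3 → ZMod M) :
    ∑ i, (![a, 2 * (a + e), a + e] : Fin 3 → ℕ) i * (y i).val =
      a * (y 0).val + 2 * (a + e) * (y 1).val + (a + e) * (y 2).val := by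
  rw [Fin.sum_univ_three]
  rfl

theorem b16_corner {M : ℕ} [NeZero M] (a e h : ℕ) (A : Finset ℕ) (T : (Fin 3 → ZMod M) → Prop)
    (hT : ∀ y, T y → (∀ i, 2 * (y i).val < M) ∧
      h + (a * (y 0).val + 2 * (a + e) * (y 1).val + (a + e) * (y 2).val) ∈ A)
    (y : Fin 3 → ZMod M) (d : ZMod M) (hd : d ≠ 0) (h0 : T y)
    (h1 : ∀ i, T (y + Pi.single i d)) :
    ∃ n t a' : ℕ, (0 < t ∧ t < M ∧ n ∈ A ∧ n + a' * t ∈ A ∧
      n + (a + e) * t ∈ A ∧ n + 2 * (a + e) * t ∈ A) ∧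
      ((a' = a ∧ d = t ∧
          n = h + (a * (y 0).val + 2 * (a + e) * (y 1).val + (a + e) * (y 2).val)) ∨
        (a' = a + 2 * e ∧ d = -t ∧ n + 2 * (a + e) * t =
          h + (a * (y 0).val + 2 * (a + e) * (y 1).val + (a + e) * (y 2).val))) := by
  obtain ⟨b, m⟩ := hT y h0
  obtain ⟨b0, m0⟩ := hT _ (h1 0)
  obtain ⟨b1, m1⟩ := hT _ (h1 1)
  obtain ⟨b2, m2⟩ := hT _ (h1 2)
  have c0 := b0 0
  have c1 := b1 1
  have c2 := b2 2
  have c3 := b 0
  simp only [Pi.add_apply, Pi.single_eq_same, Pi.single_apply, Fin.reduceEq,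
    if_false, add_zero, one_ne_zero, zero_ne_one] at c0 c1 c2 m0 m1 m2
  have e1 := b16_eq (y 0) (y 1) d (b 0) c0 (b 1) c1
  have e2 := b16_eq (y 0) (y 2) d (b 0) c0 (b 2) c2
  have hne : (y 0 + d).val ≠ (y 0).val := fun h => hd (by simpa using ZMod.val_injective M h)
  have hc : (((y 0 + d).val : ℕ) : ZMod M) = (((y 0).val : ℕ) : ZMod M) + d := by
    rw [ZMod.natCast_zmod_val, ZMod.natCast_zmod_val]
  generalize (y 0 + d).val = u0 at *
  generalize (y 1 + d).val = u1 at *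
  generalize (y 2 + d).val = u2 at *
  generalize (y 0).val = v0 at *
  generalize (y 1).val = v1 at *
  generalize (y 2).val = v2 at *
  rcases lt_or_gt_of_ne hne with hl | hl
  · obtain ⟨t, rfl⟩ := Nat.exists_eq_add_of_le hl.le
    obtain rfl : v1 = u1 + t := by omega
    obtain rfl : v2 = u2 + t := by omega
    refine ⟨_, t, a + 2 * e, ⟨by omega, by omega, m1, ?_, ?_, ?_⟩, Or.inr ⟨rfl, ?_, by ring⟩⟩
    · convert m0 using 1
      ring
    · convert m2 using 1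
      ring
    · convert m using 1
      ring
    · rw [Nat.cast_add] at hc
      linear_combination -hc
  · obtain ⟨t, rfl⟩ := Nat.exists_eq_add_of_le hl.le
    obtain rfl : u1 = v1 + t := by omega
    obtain rfl : u2 = v2 + t := by omega
    refine ⟨_, t, a, ⟨by omega, by omega, m, ?_, ?_, ?_⟩, Or.inl ⟨rfl, ?_, rfl⟩⟩
    · convert m0 using 1
      ring
    · convert m2 using 1
      ring
    · convert m1 using 1
      ring
    · rw [Nat.cast_add] at hc
      linear_combination -hc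

theorem b16_card {M : ℕ} [NeZero M] (a e h : ℕ) (ha : 0 < a) (he : 0 < e) (A : Finset ℕ)
    (T : (Fin 3 → ZMod M) → Prop)
    (hT : ∀ y, T y → (∀ i, 2 * (y i).val < M) ∧
      h + (a * (y 0).val + 2 * (a + e) * (y 1).val + (a + e) * (y 2).val) ∈ A) :
    (univ.filter fun z : (Fin 3 → ZMod M) × ZMod M =>
      z.2 ≠ 0 ∧ T z.1 ∧ ∀ i, T (z.1 + Pi.single i z.2)).card ≤
      ((A ×ˢ range M ×ˢ ({a, a + 2 * e} : Finset ℕ)).filter fun z =>
        0 < z.2.1 ∧ z.1 + z.2.2 * z.2.1 ∈ A ∧ z.1 + (a + e) * z.2.1 ∈ A ∧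
          z.1 + 2 * (a + e) * z.2.1 ∈ A).card * M ^ 2 := by
  have hc : M ^ 2 = (univ : Finset (ZMod M × ZMod M)).card := by
    rw [card_univ, Fintype.card_prod, ZMod.card, sq]
  rw [hc, ← card_product]
  refine card_le_card_of_forall_subsingleton
    (fun (z : (Fin 3 → ZMod M) × ZMod M) (k : (ℕ × ℕ × ℕ) × ZMod M × ZMod M) =>
      z.1 1 = k.2.1 ∧ z.1 2 = k.2.2 ∧
      ((k.1.2.2 = a ∧ z.2 = k.1.2.1 ∧
          k.1.1 = h + (a * (z.1 0).val + 2 * (a + e) * (z.1 1).val + (a + e) * (z.1 2).val)) ∨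
        (k.1.2.2 = a + 2 * e ∧ z.2 = -k.1.2.1 ∧ k.1.1 + 2 * (a + e) * k.1.2.1 =
          h + (a * (z.1 0).val + 2 * (a + e) * (z.1 1).val + (a + e) * (z.1 2).val))))
    (fun z hz => ?_) fun k _ z hz z' hz' => ?_
  · obtain ⟨h1, h2, h3⟩ := (mem_filter.1 hz).2
    obtain ⟨n, t, a', ⟨p1, p2, p3, p4, p5, p6⟩, p7⟩ := b16_corner a e h A T hT z.1 z.2 h1 h2 h3
    refine ⟨((n, t, a'), z.1 1, z.1 2), mem_product.2 ⟨mem_filter.2 ⟨mem_product.2 ⟨p3,
      mem_product.2 ⟨mem_range.2 p2, ?_⟩⟩, p1, p4, p5, p6⟩, mem_univ _⟩, rfl, rfl, p7⟩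
    rcases p7 with p7 | p7
    · exact mem_insert.2 (Or.inl p7.1)
    · exact mem_insert.2 (Or.inr (mem_singleton.2 p7.1))
  · obtain ⟨-, q1, q2, q3⟩ := hz
    obtain ⟨-, r1, r2, r3⟩ := hz'
    have s1 : z.1 1 = z'.1 1 := q1.trans r1.symm
    have s2 : z.1 2 = z'.1 2 := q2.trans r2.symm
    have key : z.2 = z'.2 ∧ a * (z.1 0).val = a * (z'.1 0).val := by
      rw [s1, s2] at q3
      rcases q3 with ⟨x1, x2, x3⟩ | ⟨x1, x2, x3⟩ <;> rcases r3 with ⟨y1, y2, y3⟩ | ⟨y1, y2, y3⟩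
      · exact ⟨x2.trans y2.symm, by omega⟩
      · omega
      · omega
      · exact ⟨x2.trans y2.symm, by omega⟩
    have s0 : z.1 0 = z'.1 0 := ZMod.val_injective M (Nat.eq_of_mul_eq_mul_left ha key.2)
    refine Prod.ext (funext fun i => ?_) key.1
    fin_cases i
    · exact s0
    · exact s1
    · exact s2

theorem b16_GG_le (P : Finset ℕ) (hP : ∀ p ∈ P, p.Prime) (Y : ℕ) : Sg.GG P Y ≤ Y := by
  calc Sg.GG P Y ≤ ∑ _S ∈ Sg.fam P Y, (1 : ℝ) := by
        refine sum_le_sum fun S hS => ?_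
        have hS' := (Sg.ExpandAux.mem_fam.1 hS).1
        refine prod_le_one (fun p hp => ?_) fun p hp => ?_
        · have : (2 : ℝ) ≤ p := by exact_mod_cast (hP p (hS' hp)).two_le
          exact div_nonneg zero_le_one (by linarith)
        · have : (2 : ℝ) ≤ p := by exact_mod_cast (hP p (hS' hp)).two_le
          rw [div_le_one (by linarith)]
          linarith
    _ ≤ Y := by
        rw [sum_const, nsmul_eq_mul, mul_one]
        exact_mod_cast LFcoreAux.card_fam _ hP Y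

theorem b16_triv {M : ℕ} [NeZero M] (T : (Fin 3 → ZMod M) → Prop) (G : ℝ) :
    lamC M (fun y => if T y then G else 0) ≤ G ^ 4 / M +
      G ^ 4 * (univ.filter fun z : (Fin 3 → ZMod M) × ZMod M =>
        z.2 ≠ 0 ∧ T z.1 ∧ ∀ i, T (z.1 + Pi.single i z.2)).card / (M : ℝ) ^ 4 := by
  have h4 : 0 ≤ G ^ 4 := by positivity
  have h1 : av (fun z : (Fin 3 → ZMod M) × ZMod M => if z.2 = 0 then G ^ 4 else 0) =
      G ^ 4 / M := by
    rw [av_prod, ← av_const (X := Fin 3 → ZMod M) (G ^ 4 / M)]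
    refine av_congr fun y => ?_
    simp [av, ZMod.card]
  have h2 : av (fun z : (Fin 3 → ZMod M) × ZMod M =>
      if z.2 ≠ 0 ∧ T z.1 ∧ ∀ i, T (z.1 + Pi.single i z.2) then G ^ 4 else 0) =
      G ^ 4 * (univ.filter fun z : (Fin 3 → ZMod M) × ZMod M =>
        z.2 ≠ 0 ∧ T z.1 ∧ ∀ i, T (z.1 + Pi.single i z.2)).card / (M : ℝ) ^ 4 := by
    unfold av
    rw [← sum_filter, sum_const, nsmul_eq_mul, Fintype.card_prod, Fintype.card_fun, ZMod.card,
      Fintype.card_fin, mul_comm _ (G ^ 4), ← pow_succ, Nat.cast_pow]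
  rw [lamC, ← h1, ← h2, ← av_add]
  refine av_mono fun z => ?_
  by_cases h0 : T z.1 ∧ ∀ i, T (z.1 + Pi.single i z.2)
  · have h3 : (if T z.1 then G else 0) *
        ∏ i, (if T (z.1 + Pi.single i z.2) then G else 0) = G ^ 4 := by
      simp only [h0.1, h0.2, if_true, prod_const, card_univ, Fintype.card_fin]
      ring
    refine h3.le.trans ?_
    by_cases hz : z.2 = 0
    · rw [if_pos hz, if_neg fun h => h.1 hz, add_zero]
    · rw [if_neg hz, if_pos ⟨hz, h0⟩, zero_add]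
  · have h3 : (if T z.1 then G else 0) *
        ∏ i, (if T (z.1 + Pi.single i z.2) then G else 0) = 0 := by
      by_cases h3 : T z.1
      · have h5 : ¬ ∀ i, T (z.1 + Pi.single i z.2) := fun h5 => h0 ⟨h3, h5⟩
        push Not at h5
        obtain ⟨i, hi⟩ := h5
        rw [prod_eq_zero (mem_univ i) (if_neg hi), mul_zero]
      · rw [if_neg h3, zero_mul]
    refine h3.le.trans ?_
    rw [if_neg fun h : _ ∧ _ => h0 h.2, add_zero]
    split_ifs
    · exact h4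
    · exact le_rfl

theorem ucorC (δ : ℝ) (hδ : 0 < δ) : ∃ w Y₀ : ℕ, ∀ (Y M N q₀ q r a e : ℕ) (A : Finset ℕ),
    M.Prime → Y₀ ≤ Y → Y ^ 7170 ≤ M → 0 < q₀ → 0 < a → 0 < e →
      (∀ p ∈ PQ q₀ Y, w < p ∧ ¬ p ∣ q ∧ ¬ p ∣ a ∧ ¬ p ∣ a + e ∧ ¬ p ∣ a + 2 * e ∧ ¬ p ∣ e) →
      (∀ n ∈ A, 4 * (a + e) * M ≤ n ∧ n < N ∧ (q * n + r).Prime ∧ Y < q * n + r) →
      0 < N → δ * N ≤ (Nat.totient q₀ : ℝ) / q₀ * Real.log Y * A.card →
      M ^ 2 ≤ Y ^ 5 * ((A ×ˢ range M ×ˢ ({a, a + 2 * e} : Finset ℕ)).filter fun z =>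
        0 < z.2.1 ∧ z.1 + z.2.2 * z.2.1 ∈ A ∧ z.1 + (a + e) * z.2.1 ∈ A ∧
          z.1 + 2 * (a + e) * z.2.1 ∈ A).card := by
  obtain ⟨η, hη, c, hc, M₀, hT⟩ := relCor (δ / 8) (by positivity)
  obtain ⟨w, R₀, hw⟩ := lf47 η hη
  refine ⟨w, R₀ + M₀ + ⌈2 / c⌉₊ + 1,
    fun Y M N q₀ q r a e A hMp hY hYM hq₀ ha he hPQ hA hN hd => ?_⟩
  have : NeZero M := ⟨hMp.ne_zero⟩
  have hY1 : 1 ≤ Y := by omega
  have hPp : ∀ p ∈ PQ q₀ Y, p.Prime := fun p hp => (mem_filter.1 hp).2.1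
  have hPY : ∀ p ∈ PQ q₀ Y, p ≤ Y := fun p hp => (mem_Ioc.1 (mem_filter.1 hp).1).2
  have hG1 := Sg.one_le_GG (PQ q₀ Y) (fun p hp => (hPp p hp).two_le) Y hY1
  have hG0 : 0 < Sg.GG (PQ q₀ Y) Y := one_pos.trans_le hG1
  have h5 : Y ^ 4 * Y ≤ M := by
    rw [← pow_succ]
    exact le_trans (Nat.pow_le_pow_right hY1 (by norm_num)) hYM
  have hYle : Y ≤ M := le_trans (Nat.le_mul_of_pos_left Y (by positivity)) h5
  obtain ⟨h, hh⟩ := b16_best (univ.filter fun y : Fin 3 → ZMod M => ∀ i, 2 * (y i).val < M)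
    (fun y => a * (y 0).val + 2 * (a + e) * (y 1).val + (a + e) * (y 2).val) A N hN
    (fun n hn => ⟨(hA n hn).2.1, fun y => by
      refine le_trans ?_ (hA n hn).1
      have a0 := Nat.mul_le_mul (Nat.le_add_right a e) (ZMod.val_lt (y 0)).le
      have a1 := Nat.mul_le_mul_left (2 * (a + e)) (ZMod.val_lt (y 1)).le
      have a2 := Nat.mul_le_mul_left (a + e) (ZMod.val_lt (y 2)).le
      calc _ ≤ (a + e) * M + 2 * (a + e) * M + (a + e) * M := by omega
        _ = _ := by ring⟩)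
  rw [filter_filter] at hh
  obtain ⟨T, hTd⟩ : ∃ T : (Fin 3 → ZMod M) → Prop, ∀ y, T y ↔ (∀ i, 2 * (y i).val < M) ∧
      h + (a * (y 0).val + 2 * (a + e) * (y 1).val + (a + e) * (y 2).val) ∈ A :=
    ⟨_, fun _ => Iff.rfl⟩
  have hh' : A.card * (univ.filter fun y : Fin 3 → ZMod M => ∀ i, 2 * (y i).val < M).card ≤
      N * (univ.filter T).card := by
    convert hh using 3
    ext y
    simp only [mem_filter, hTd]
  obtain ⟨l4, l7⟩ := hw M hMp (PQ q₀ Y) Y q (q * h + r) a e (by omega) hYM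
    (fun p hp => ⟨hPp p hp, (hPQ p hp).1, hPY p hp, (hPQ p hp).2⟩)
  have h0 : ∀ y, 0 ≤ nu3 (PQ q₀ Y) Y q (q * h + r) ![a, 2 * (a + e), a + e] M y :=
    fun y => div_nonneg (sq_nonneg _) hG0.le
  have hval : ∀ y, T y → nu3 (PQ q₀ Y) Y q (q * h + r) ![a, 2 * (a + e), a + e] M y =
      Sg.GG (PQ q₀ Y) Y := by
    intro y hy
    obtain ⟨-, -, hp, hlt⟩ := hA _ ((hTd y).1 hy).2
    rw [nu3, Sg.beta_eq_GG _ _ _ fun p hpP hdv => ?_, sq, mul_div_assoc, div_self hG0.ne', mul_one]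
    rw [b16_phi, ← add_assoc, ← mul_add, add_comm _ h] at hdv
    have h4 := (Nat.prime_dvd_prime_iff_eq (hPp p hpP) hp).mp hdv
    have h5 := hPY p hpP
    omega
  have hM0 : (0 : ℝ) < M := by exact_mod_cast hMp.pos
  have hN0 : (0 : ℝ) < N := by exact_mod_cast hN
  have hlam := hT M hMp (by omega) (nu3 (PQ q₀ Y) Y q (q * h + r) ![a, 2 * (a + e), a + e] M)
    (fun y => if T y then Sg.GG (PQ q₀ Y) Y else 0)
    (fun y => by
      by_cases hy : T y
      · simp only [if_pos hy, hval y hy]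
        exact ⟨hG0.le, le_rfl⟩
      · simp only [if_neg hy]
        exact ⟨le_rfl, h0 y⟩)
    (by
      unfold av
      rw [← sum_filter, sum_const, nsmul_eq_mul, Fintype.card_fun, ZMod.card, Fintype.card_fin,
        le_div_iff₀ (Nat.cast_pos.2 (pow_pos hMp.pos 3))]
      have a1 : δ * N ≤ Sg.GG (PQ q₀ Y) Y * A.card :=
        hd.trans (mul_le_mul_of_nonneg_right (GG_geQ q₀ Y hq₀ hY1) (Nat.cast_nonneg _))
      have a2 : M ^ 3 * A.card ≤ 8 * (N * (univ.filter T).card) := by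
        have := Nat.mul_le_mul_right A.card (b16_box M)
        rw [mul_assoc] at this
        exact this.trans (Nat.mul_le_mul_left 8 ((mul_comm _ _).trans_le hh'))
      have a3 : ((M ^ 3 : ℕ) : ℝ) * A.card ≤ 8 * (N * (univ.filter T).card) := by
        exact_mod_cast a2
      have a4 : (0 : ℝ) ≤ ((M ^ 3 : ℕ) : ℝ) := Nat.cast_nonneg _
      refine le_of_mul_le_mul_left ?_ hN0
      have a5 := mul_le_mul_of_nonneg_left a1 a4
      have a6 := mul_le_mul_of_nonneg_left a3 hG0.le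
      nlinarith) l4 l7
  have h3 := hlam.trans (b16_triv T _)
  have k1 := b16_card a e h ha he A T fun y hy => (hTd y).1 hy
  generalize (univ.filter fun z : (Fin 3 → ZMod M) × ZMod M =>
    z.2 ≠ 0 ∧ T z.1 ∧ ∀ i, T (z.1 + Pi.single i z.2)).card = C at h3 k1
  generalize ((A ×ˢ range M ×ˢ ({a, a + 2 * e} : Finset ℕ)).filter fun z =>
    0 < z.2.1 ∧ z.1 + z.2.2 * z.2.1 ∈ A ∧ z.1 + (a + e) * z.2.1 ∈ A ∧
      z.1 + 2 * (a + e) * z.2.1 ∈ A).card = K at k1 ⊢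
  have k2 : (C : ℝ) ≤ K * (M : ℝ) ^ 2 := by exact_mod_cast k1
  have h4 : Sg.GG (PQ q₀ Y) Y ^ 4 ≤ (Y : ℝ) ^ 4 :=
    pow_le_pow_left₀ hG0.le (b16_GG_le _ hPp Y) 4
  have h6 : (Y : ℝ) ^ 4 * Y ≤ M := by exact_mod_cast h5
  have hY0 : (0 : ℝ) < Y := by exact_mod_cast hY1
  have h8 : 2 / c ≤ Y := by
    have a1 := Nat.le_ceil (2 / c)
    have a2 : ((⌈2 / c⌉₊ : ℕ) : ℝ) ≤ Y := by exact_mod_cast (by omega)
    linarith
  rw [div_le_iff₀ hc] at h8
  have k3 : Sg.GG (PQ q₀ Y) Y ^ 4 / M ≤ c / 2 := by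
    rw [div_le_iff₀ hM0]
    have a1 := mul_le_mul_of_nonneg_left h8 (pow_nonneg hY0.le 4)
    have a2 := mul_le_mul_of_nonneg_left h6 hc.le
    nlinarith
  have k4 : Sg.GG (PQ q₀ Y) Y ^ 4 * C / (M : ℝ) ^ 4 ≤ (Y : ℝ) ^ 4 * K / (M : ℝ) ^ 2 := by
    rw [div_le_div_iff₀ (by positivity) (by positivity)]
    have a1 := mul_le_mul h4 k2 (Nat.cast_nonneg _) (by positivity)
    have a2 := mul_le_mul_of_nonneg_right a1 (sq_nonneg (M : ℝ))
    exact a2.trans (le_of_eq (by ring))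
  have k5 : c / 2 ≤ (Y : ℝ) ^ 4 * K / (M : ℝ) ^ 2 := by linarith
  rw [le_div_iff₀ (by positivity)] at k5
  have k6 : (M : ℝ) ^ 2 ≤ (Y : ℝ) ^ 5 * K := by
    have a1 := mul_le_mul_of_nonneg_left k5 hY0.le
    have a2 := mul_le_mul_of_nonneg_right h8 (sq_nonneg (M : ℝ))
    nlinarith
  exact_mod_cast k6

end Pool.Agent.FS.AllLarge
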