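import Pool.Agent.Lib.MP_4b8564_nt.GT.Colour

/-!
A majorant on three coordinates and its linear forms condition.
-/

open Finset
open scoped Classical

noncomputable section

namespace Pool.Agent.FS.AllLarge

open Pool.Agent.Lib.MP_4b8564_nt Pool.Agent.Lib.MP_4b8564_nt.GT

/-- the primes up to `Y` that do not divide `q` -/
def PQ (q Y : ℕ) : Finset ℕ := (Ioc 0 Y).filter fun p => p.Prime ∧ ¬ p ∣ q

/-- the majorant on `(ℤ/M)^3` -/
def nu3 (P : Finset ℕ) (Y q r : ℕ) (cf : Fin 3 → ℕ) (M : ℕ) (y : Fin 3 → ZMod M) : ℝ :=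
  Sg.beta P Y (q * (∑ i, cf i * (y i).val) + r) ^ 2 / Sg.GG P Y

/-- three linear forms -/
def lin {ι : Type} [Fintype ι] (M : ℕ) (A : Fin 3 → ι → ℤ) (x : ι → ZMod M) : Fin 3 → ZMod M :=
  fun i => ∑ k, (A i k : ZMod M) * x k

/-- the four points of a corner -/
def A4 (j : Fin 4) (i : Fin 3) (k : Fin 4) : ℤ :=
  if j = i.succ then (if k = 0 then 1 else if k = j then 0 else -1)
  else (if k = i.succ then 1 else 0)

/-- the six directions -/
def A7 : Fin 3 → Fin 7 → ℤ :=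
  ![![0, 1, 0, 0, 1, 1, 0], ![0, 0, 1, 0, -1, 0, 1], ![0, 0, 0, 1, 0, -1, -1]]

/-- normalised count of corners (trivial ones included) -/
def lamC (M : ℕ) [NeZero M] (f : (Fin 3 → ZMod M) → ℝ) : ℝ :=
  av fun z : (Fin 3 → ZMod M) × ZMod M => f z.1 * ∏ i, f (z.1 + Pi.single i z.2)

/-- separation of forms modulo `p` -/
def SepP {T V : Type} (a : T → V → ℤ) (S : Finset T) (p : ℕ) : Prop :=
  (∀ s ∈ S, ∃ v, ¬ (p : ℤ) ∣ a s v) ∧
    ∀ s ∈ S, ∀ s' ∈ S, s ≠ s' → ∃ v, ¬ (p : ℤ) ∣ a s v ∧ a s' v = 0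

theorem b1_split (q Y : ℕ) (hq : 0 < q) :
    Sg.GG (Sg.PP 0 Y) Y ≤ (∑ S ∈ q.primeFactors.powerset, Sg.iphi S) * Sg.GG (PQ q Y) Y := by
  rw [Sg.GG, Sg.GG, Finset.sum_mul_sum, ← Finset.sum_product']
  have hinj : Set.InjOn (fun S : Finset ℕ => (S.filter (· ∣ q), S.filter fun p => ¬ p ∣ q))
      (Sg.fam (Sg.PP 0 Y) Y) := by
    intro S _ T _ h
    simp only [Prod.mk.injEq] at h
    rw [← Finset.filter_union_filter_not_eq (· ∣ q) S,
      ← Finset.filter_union_filter_not_eq (· ∣ q) T, h.1, h.2]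
  have h1 : ∑ S ∈ Sg.fam (Sg.PP 0 Y) Y, Sg.iphi S = ∑ x ∈ (Sg.fam (Sg.PP 0 Y) Y).image
      (fun S : Finset ℕ => (S.filter (· ∣ q), S.filter fun p => ¬ p ∣ q)),
        Sg.iphi x.1 * Sg.iphi x.2 := by
    rw [Finset.sum_image hinj]
    exact Finset.sum_congr rfl fun S _ => (Finset.prod_filter_mul_prod_filter_not S _ _).symm
  rw [h1]
  refine Finset.sum_le_sum_of_subset_of_nonneg (fun x hx => ?_) fun x hx _ => ?_
  · obtain ⟨S, hS, rfl⟩ := Finset.mem_image.mp hx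
    obtain ⟨h2, h3⟩ := Finset.mem_filter.mp hS
    have h4 : ∀ p ∈ S, p ≤ Y ∧ p.Prime := fun p hp => by
      have := Finset.mem_filter.mp (Finset.mem_powerset.mp h2 hp)
      exact ⟨(Finset.mem_Ioc.mp this.1).2, this.2⟩
    refine Finset.mem_product.mpr ⟨Finset.mem_powerset.mpr fun p hp => ?_,
      Finset.mem_filter.mpr ⟨Finset.mem_powerset.mpr fun p hp => ?_, ?_⟩⟩
    · obtain ⟨a, b⟩ := Finset.mem_filter.mp hp
      exact Nat.mem_primeFactors.mpr ⟨(h4 p a).2, b, hq.ne'⟩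
    · obtain ⟨a, b⟩ := Finset.mem_filter.mp hp
      exact Finset.mem_filter.mpr
        ⟨Finset.mem_Ioc.mpr ⟨(h4 p a).2.pos, (h4 p a).1⟩, (h4 p a).2, b⟩
    · exact (Finset.prod_le_prod_of_subset_of_one_le' (Finset.filter_subset _ _)
        fun p hp _ => (h4 p hp).2.one_lt.le).trans h3
  · obtain ⟨a, b⟩ := Finset.mem_product.mp hx
    refine mul_nonneg (Sg.GGgeAux.iphi_nonneg _ fun p hp => ?_)
      (Sg.GGgeAux.iphi_nonneg _ fun p hp => ?_)
    · exact Nat.prime_of_mem_primeFactors (Finset.mem_powerset.mp a hp)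
    · exact (Finset.mem_filter.mp (Finset.mem_powerset.mp (Finset.mem_filter.mp b).1 hp)).2.1

theorem b1_small (q : ℕ) (hq : 0 < q) : (Nat.totient q : ℝ) / q *
    ∑ S ∈ q.primeFactors.powerset, Sg.iphi S = 1 := by
  have h1 : ∑ S ∈ q.primeFactors.powerset, Sg.iphi S
      = ∏ p ∈ q.primeFactors, (1 + 1 / ((p : ℝ) - 1)) := by
    rw [Finset.prod_one_add]; rfl
  have h2 := Nat.totient_eq_mul_prod_factors q
  have h3 : (Nat.totient q : ℝ) = q * ∏ p ∈ q.primeFactors, (1 - (p : ℝ)⁻¹) := by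
    have := congrArg (Rat.cast : ℚ → ℝ) h2
    push_cast at this
    exact this
  have h4 : (q : ℝ) ≠ 0 := by exact_mod_cast hq.ne'
  rw [h1, h3, mul_div_cancel_left₀ _ h4, ← Finset.prod_mul_distrib]
  refine Finset.prod_eq_one fun p hp => ?_
  have h5 : (1 : ℝ) < p := by exact_mod_cast (Nat.prime_of_mem_primeFactors hp).one_lt
  have h6 : (p : ℝ) - 1 ≠ 0 := by linarith
  have h7 : (p : ℝ) ≠ 0 := by linarith
  field_simp
  ring

theorem GG_geQ (q Y : ℕ) (hq : 0 < q) (hY : 1 ≤ Y) :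
    (Nat.totient q : ℝ) / q * Real.log Y ≤ Sg.GG (PQ q Y) Y := by
  have h1 := (Sg.GGgeAux.log_le Y hY).trans (b1_split q Y hq)
  refine (mul_le_mul_of_nonneg_left h1 (by positivity)).trans (le_of_eq ?_)
  rw [← mul_assoc, b1_small q hq, one_mul]

theorem b2_not_dvd {p : ℕ} (hp : p.Prime) {W x : ℤ} (hW : ¬ (p : ℤ) ∣ W) (hx : ¬ (p : ℤ) ∣ x) :
    ¬ (p : ℤ) ∣ W * x := fun h =>
  ((Nat.prime_iff_prime_int.1 hp).dvd_or_dvd h).elim hW hx

theorem b2_local_mean {T V : Type} [Fintype V] [DecidableEq V] (a : T → V → ℤ) (S : Finset T)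
    (p : ℕ) (hp : p.Prime) (hS : SepP a S p) (W b : ℤ) (hW : ¬ (p : ℤ) ∣ W)
    (c : T → ℤ) (S' : Finset T) (hS' : S' ⊆ S) :
    (S'.card = 1 →
      bav p (fun h : V → ℤ => ∏ s ∈ S', gz p (W * (c s + ∑ v, a s v * h v) + b)) = 0) ∧
    (2 ≤ S'.card →
      |bav p fun h : V → ℤ => ∏ s ∈ S', gz p (W * (c s + ∑ v, a s v * h v) + b)| ≤
        4 / (p : ℝ) ^ 2) := by
  haveI : Nonempty (Fin p) := ⟨⟨0, hp.pos⟩⟩
  obtain ⟨h2, h3⟩ := hS
  constructor
  · intro hc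
    obtain ⟨s, rfl⟩ := card_eq_one.1 hc
    obtain ⟨v, hv⟩ := h2 s (hS' (mem_singleton_self s))
    unfold bav
    simp only [prod_singleton]
    rw [av_update v]
    simp only [LocalAux.form_update, LocalAux.av_gz p hp _ _ (b2_not_dvd hp hW hv), av_zero]
  · intro hc
    obtain ⟨s, hs, s', hs', hne⟩ := one_lt_card.1 hc
    obtain ⟨v, hv, hv'⟩ := h3 s (hS' hs) s' (hS' hs') hne
    obtain ⟨w, hw⟩ := h2 s' (hS' hs')
    unfold bav
    refine (abs_av_le _).trans ?_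
    have key : ∀ f : T → ℝ, (∀ t, |f t| ≤ 1) → |∏ t ∈ S', f t| ≤ |f s| * |f s'| := fun f hf => by
      rw [← mul_prod_erase S' f hs, ← mul_prod_erase (S'.erase s) f (mem_erase.2 ⟨hne.symm, hs'⟩),
        abs_mul, abs_mul, abs_prod]
      refine mul_le_mul_of_nonneg_left (mul_le_of_le_one_right (abs_nonneg _) ?_) (abs_nonneg _)
      exact prod_le_one (fun t _ => abs_nonneg _) fun t _ => hf t
    refine (av_mono fun h => key _ fun t => LocalAux.abs_gz_le hp _).trans (le_of_eq ?_)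
    have e1 : av (fun h : V → Fin p =>
        |gz p (W * (c s + ∑ v, a s v * ((h v : ℕ) : ℤ)) + b)| *
          |gz p (W * (c s' + ∑ v, a s' v * ((h v : ℕ) : ℤ)) + b)|) =
        av fun h : V → Fin p =>
          2 / (p : ℝ) * |gz p (W * (c s' + ∑ v, a s' v * ((h v : ℕ) : ℤ)) + b)| := by
      rw [av_update v]
      refine av_congr fun h => ?_
      have e2 : ∀ t : Fin p, W * (c s' + ∑ v', a s' v' * ((Function.update h v t v' : ℕ) : ℤ)) + b =
          W * (c s' + ∑ v, a s' v * ((h v : ℕ) : ℤ)) + b := fun t => by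
        have := LocalAux.form_update (a s') W b (c s') h v (h v)
        rw [Function.update_eq_self] at this
        rw [this, LocalAux.form_update, hv']
        simp
      simp only [e2]
      simp only [LocalAux.form_update, av_mul_const, LocalAux.av_abs_gz p hp _ _ (b2_not_dvd hp hW hv)]
    rw [e1, av_const_mul, av_update w]
    simp only [LocalAux.form_update, LocalAux.av_abs_gz p hp _ _ (b2_not_dvd hp hW hw), av_const]
    ring

theorem box_lfP {T V : Type} [Fintype V] [DecidableEq V] (a : T → V → ℤ) (S : Finset T)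
    (P : Finset ℕ) (W b : ℤ)
    (hP : ∀ p ∈ P, p.Prime ∧ 5 ≤ p ∧ ¬ (p : ℤ) ∣ W ∧ SepP a S p) (Y L : ℕ) (hY : 1 ≤ Y)
    (hL : 0 < L) (e : Finset ℕ → ℝ) (he0 : e ∅ = 1) (he : ∀ U, |e U| ≤ 4 ^ U.card) (c : T → ℤ) :
    |bav L (fun h : V → ℤ => ∏ s ∈ S, ∑ U ∈ Sg.fam P Y,
        e U * ∏ p ∈ U, gz p (W * (c s + ∑ v, a s v * h v) + b)) - 1| ≤
      (∏ p ∈ P, (1 + 4 * 5 ^ S.card / (p : ℝ) ^ 2) - 1) +
        2 * Fintype.card V * (Y : ℝ) ^ (3 * S.card) / L := by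
  have h := BoxLFAux.core (I := S) (V := V) P (fun p hp => ⟨(hP p hp).1, (hP p hp).2.1⟩)
    (fun p s h => gz p (W * (c s + ∑ v, a s v * h v) + b))
    (fun p hp s h => BoxLFAux.abs_gz p (hP p hp).1.two_le _)
    (fun p _ s x y hxy => BoxLFAux.gz_congr p (by
      have : W * (c s + ∑ v, a s v * x v) + b - (W * (c s + ∑ v, a s v * y v) + b) =
          W * ∑ v, a s v * (x v - y v) := by
        simp only [mul_sub, sum_sub_distrib]; ring
      rw [this]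
      exact (dvd_sum fun v _ => (hxy v).mul_left _).mul_left _))
    (fun p hp T' hT' => by
      have h1 := b2_local_mean a S p (hP p hp).1 (hP p hp).2.2.2 W b (hP p hp).2.2.1 c
        (T'.map (Function.Embedding.subtype _)) (fun s hs => by
          obtain ⟨s', -, rfl⟩ := mem_map.1 hs
          exact s'.2)
      simp only [card_map, prod_map, Function.Embedding.coe_subtype] at h1
      rcases (Nat.succ_le_of_lt (card_pos.2 hT')).eq_or_lt with h2 | h2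
      · rw [h1.1 h2.symm, abs_zero]; positivity
      · exact h1.2 h2)
    Y L hY hL e he0 he
  rw [Fintype.card_coe] at h
  refine le_of_eq_of_le (congrArg (fun F => |bav L F - 1|) (funext fun x => ?_)) h
  exact (prod_coe_sort S fun s => ∑ U ∈ Sg.fam P Y,
    e U * ∏ p ∈ U, gz p (W * (c s + ∑ v, a s v * x v) + b)).symm

theorem b3_bound (P : Finset ℕ) (hP : ∀ p ∈ P, p.Prime) (Y q r : ℕ) (cf : Fin 3 → ℕ) (M : ℕ)
    (hY : 1 ≤ Y) (y : Fin 3 → ZMod M) :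
    0 ≤ nu3 P Y q r cf M y ∧ nu3 P Y q r cf M y ≤ (Y : ℝ) ^ 2 := by
  have hG := Sg.one_le_GG P (fun p hp => (hP p hp).two_le) Y hY
  refine ⟨div_nonneg (sq_nonneg _) (by linarith), ?_⟩
  refine (div_le_self (sq_nonneg _) hG).trans ?_
  rw [← sq_abs]
  gcongr
  exact LFcoreAux.abs_beta _ hP Y _

theorem b3_euler (P : Finset ℕ) (w Y n m : ℕ) (hn : n ≤ m)
    (hP : ∀ p ∈ P, p.Prime ∧ w < p ∧ p ≤ Y) :
    ∏ p ∈ P, (1 + 4 * 5 ^ n / (p : ℝ) ^ 2) ≤ Real.exp (8 * 5 ^ m / ((w : ℝ) + 1)) := by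
  refine le_trans ?_ (LFcoreAux.euler w Y n m hn)
  refine prod_le_prod_of_subset_of_one_le (fun p hp => ?_) (fun _ _ => by positivity)
    fun p _ _ => le_add_of_nonneg_right (by positivity)
  exact mem_filter.2 ⟨mem_Ioc.2 ⟨(hP p hp).2.1, (hP p hp).2.2⟩, (hP p hp).1⟩

open LFcoreAux in
theorem lf_core3 (V : Type) [Fintype V] [DecidableEq V] (m : ℕ) (ε : ℝ) (hε : 0 < ε) :
    ∃ w Y₀ : ℕ, ∀ (M : ℕ) [NeZero M], M.Prime → ∀ (P : Finset ℕ) (Y q r : ℕ) (cf : Fin 3 → ℕ),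
      Y₀ ≤ Y → Y ^ (8 * m + 2) ≤ M → (∀ p ∈ P, p.Prime ∧ w < p ∧ p ≤ Y ∧ ¬ p ∣ q) →
      ∀ (T : Type) (a : T → Fin 3 → V → ℤ) (S : Finset T), S.card ≤ m → (∀ s i v, |a s i v| ≤ 1) →
        (∀ s ∈ S, ∀ i, ∃ v, a s i v ≠ 0) →
        (∀ p ∈ P, SepP (fun s v => ∑ i, (cf i : ℤ) * a s i v) S p) →
        |av (fun z : V → ZMod M => ∏ s ∈ S, nu3 P Y q r cf M (lin M (a s) z)) - 1| ≤ ε := by
  have hlog : 0 < Real.log (1 + ε / 3) := Real.log_pos (by linarith)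
  obtain ⟨w₀, hw₀⟩ := exists_nat_ge (8 * 5 ^ m / Real.log (1 + ε / 3))
  obtain ⟨R₁, hR₁⟩ := exists_nat_ge (6 * Fintype.card V * (1 + m * 3) / ε)
  refine ⟨w₀ + 4, R₁ + 2, fun N _ hN P R q r cf hR hRN hPP T a S hm ha1 ha0 hS => ?_⟩
  set w := w₀ + 4 with hw
  set n := Fintype.card V with hn
  have hR1 : 1 ≤ R := by omega
  have hR1' : (1 : ℝ) ≤ R := by exact_mod_cast hR1
  have hBN : 1 < N := hN.one_lt
  have hPp : ∀ p ∈ P, p.Prime := fun p hp => (hPP p hp).1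
  obtain ⟨e, he0, he, hexp⟩ := Sg.expand P (fun p hp => (hPp p hp).two_le) R hR1
  set L := R ^ (6 * m + 1) with hL
  have hL0 : 0 < L := by positivity
  have : Nonempty (Fin L) := ⟨⟨0, hL0⟩⟩
  set K := 1 * n * L with hK
  have hP : ∀ p ∈ P, p.Prime ∧ 5 ≤ p ∧ ¬ (p : ℤ) ∣ (q : ℤ) ∧
      SepP (fun s v => ∑ i, (cf i : ℤ) * a s i v) S p := fun p hp => by
    have h1 := (hPP p hp).2.1
    exact ⟨hPp p hp, by omega, fun h => (hPP p hp).2.2.2 (Int.natCast_dvd_natCast.1 h), hS p hp⟩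
  have hE : ∏ p ∈ P, (1 + 4 * 5 ^ S.card / (p : ℝ) ^ 2) - 1 ≤ ε / 3 := by
    have h1 : 8 * 5 ^ m / ((w : ℝ) + 1) ≤ Real.log (1 + ε / 3) := by
      rw [div_le_iff₀ hlog] at hw₀
      rw [div_le_iff₀ (by positivity), mul_comm (Real.log _)]
      refine hw₀.trans (mul_le_mul_of_nonneg_right ?_ hlog.le)
      have : w₀ ≤ w + 1 := by omega
      exact_mod_cast this
    have h2 := (b3_euler P w R S.card m hm fun p hp =>
      ⟨hPp p hp, (hPP p hp).2.1, (hPP p hp).2.2.1⟩).trans (Real.exp_le_exp.2 h1)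
    rw [Real.exp_log (by linarith)] at h2
    linarith
  have hRε : 6 * (n : ℝ) * (1 + m * 3) ≤ ε * R := by
    rw [div_le_iff₀ hε] at hR₁
    refine hR₁.trans ?_
    rw [mul_comm]
    have : R₁ ≤ R := by omega
    gcongr
  have hR0 : (0 : ℝ) < R := by linarith
  have hE2 : 2 * (n : ℝ) * ((R ^ 2 : ℕ) : ℝ) ^ (3 * S.card) / L ≤ 2 * n / R := by
    rw [div_le_div_iff₀ (by exact_mod_cast hL0) hR0, hL]
    push_cast
    rw [← pow_mul, mul_assoc, ← pow_succ]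
    exact mul_le_mul_of_nonneg_left (pow_le_pow_right₀ hR1' (by omega)) (by positivity)
  set F : (V → ZMod N) → ℝ := fun z => ∏ s ∈ S, nu3 P R q r cf N (lin N (a s) z) with hF
  have hF0 : ∀ z, 0 ≤ F z := fun z => prod_nonneg fun s _ => (b3_bound P hPp R q r cf N hR1 _).1
  have hF1 : ∀ z, F z ≤ (R : ℝ) ^ (2 * m) := fun z => by
    calc F z ≤ ∏ _s ∈ S, (R : ℝ) ^ 2 :=
          prod_le_prod (fun s _ => (b3_bound P hPp R q r cf N hR1 _).1)
            fun s _ => (b3_bound P hPp R q r cf N hR1 _).2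
      _ = (R : ℝ) ^ (2 * S.card) := by rw [prod_const, ← pow_mul]
      _ ≤ _ := pow_le_pow_right₀ hR1' (by omega)
  let bad : T × Fin 3 → (V → ZMod N) → Prop := fun s z =>
    ¬ (K ≤ (∑ v, (a s.1 s.2 v : ZMod N) * z v).val ∧
      (∑ v, (a s.1 s.2 v : ZMod N) * z v).val + K < N)
  obtain ⟨Bad, hBad⟩ : ∃ Bad : (V → ZMod N) → Prop,
      ∀ z, Bad z ↔ ∃ s ∈ S ×ˢ (univ : Finset (Fin 3)), bad s z := ⟨_, fun _ => Iff.rfl⟩
  have hbad : dn Bad ≤ (m * 3) * (2 * K / N) := by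
    refine ((dn_congr hBad).le.trans (dn_exists_le _ bad)).trans ?_
    calc ∑ s ∈ S ×ˢ (univ : Finset (Fin 3)), dn (bad s)
        ≤ ∑ _s ∈ S ×ˢ (univ : Finset (Fin 3)), (2 * K / N : ℝ) := sum_le_sum fun s hs => by
          obtain ⟨v, hv⟩ := ha0 s.1 (mem_product.1 hs).1 s.2
          have h1 : |a s.1 s.2 v| < N := (ha1 s.1 s.2 v).trans_lt (by exact_mod_cast hBN)
          exact (dn_form hN (a s.1 s.2) v hv h1
            fun x => ¬ (K ≤ x.val ∧ x.val + K < N)).le.trans (dn_edge K)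
      _ ≤ _ := by
          rw [sum_const, nsmul_eq_mul, card_product, card_univ, Fintype.card_fin]
          push_cast
          gcongr
  have hone : (1 : ℝ) ≤ (R : ℝ) ^ (2 * m) := one_le_pow₀ hR1'
  have key : ∀ z : V → ZMod N,
      |av (fun h : V → Fin L => F (z + fun v => ((h v : ℕ) : ZMod N))) - 1| ≤
        (ε / 3 + 2 * n / R) + (R : ℝ) ^ (2 * m) * if Bad z then 1 else 0 := by
    intro z
    split_ifs with hz
    · have h1 : 0 ≤ av (fun h : V → Fin L => F (z + fun v => ((h v : ℕ) : ZMod N))) :=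
        av_nonneg fun h => hF0 _
      have h2 : av (fun h : V → Fin L => F (z + fun v => ((h v : ℕ) : ZMod N))) ≤
          (R : ℝ) ^ (2 * m) := av_le_of_le fun h => hF1 _
      have h3 : 0 ≤ ε / 3 + 2 * n / R := by positivity
      rw [abs_le]
      constructor <;> linarith
    · have hb := box_lfP (fun s v => ∑ i, (cf i : ℤ) * a s i v) S P (q : ℤ) (r : ℤ) hP (R ^ 2) L
        (Nat.one_le_pow _ _ hR1) hL0 e he0 he
        fun s => ∑ i, (cf i : ℤ) * ((∑ v, (a s i v : ZMod N) * z v).val : ℤ)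
      rw [mul_zero, add_zero]
      refine le_trans (le_of_eq (congrArg (fun t : ℝ => |t - 1|) ?_))
        (hb.trans (add_le_add hE hE2))
      unfold bav
      refine av_congr fun h => ?_
      simp only [hF]
      refine prod_congr rfl fun s hs => ?_
      have hv : ∀ i : Fin 3, (((lin N (a s) (z + fun v => ((h v : ℕ) : ZMod N)) i).val : ℕ) : ℤ) =
          ((∑ v, (a s i v : ZMod N) * z v).val : ℤ) + ∑ v, a s i v * ((h v : ℕ) : ℤ) := fun i => by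
        have hg : ¬ bad (s, i) z := fun h =>
          hz ((hBad z).2 ⟨(s, i), mem_product.2 ⟨hs, mem_univ _⟩, h⟩)
        obtain ⟨g1, g2⟩ := not_not.1 hg
        exact val_shift (a s i) 1 L (fun v => by exact_mod_cast ha1 s i v) z h g1 g2
      rw [nu3, hexp]
      refine sum_congr rfl fun U _ => ?_
      rw [gS_eq]
      congr 1
      refine prod_congr rfl fun p _ => ?_
      congr 1
      push_cast
      simp only [hv, mul_add, sum_add_distrib, mul_sum, sum_mul, mul_assoc]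
      rw [sum_comm]
  have hN0 : (0 : ℝ) < N := by exact_mod_cast hN.pos
  have hfin : (R : ℝ) ^ (2 * m) * ((m * 3) * (2 * K / N)) ≤ 2 * n * (m * 3) / R := by
    have h1 : ((R : ℝ)) ^ (8 * m + 2) ≤ N := by exact_mod_cast hRN
    have h2 : (R : ℝ) ^ (2 * m) * ((m * 3) * (2 * K / N)) =
        2 * n * (m * 3) * (R : ℝ) ^ (8 * m + 1) / N := by
      rw [hK, hL]
      push_cast
      rw [show 8 * m + 1 = 2 * m + (6 * m + 1) by ring, pow_add]
      ring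
    rw [h2, div_le_div_iff₀ hN0 hR0, mul_assoc, ← pow_succ]
    gcongr
  rw [av_shift (fun (h : V → Fin L) v => ((h v : ℕ) : ZMod N)) F, ← av_const (X := V → ZMod N) 1,
    ← av_sub]
  refine (abs_av_le _).trans ((av_mono key).trans ?_)
  rw [av_add, av_const, av_const_mul]
  have h4 : (R : ℝ) ^ (2 * m) * av (fun z => if Bad z then (1 : ℝ) else 0) ≤
      2 * n * (m * 3) / R :=
    (mul_le_mul_of_nonneg_left hbad (by positivity)).trans hfin
  have h5 : 2 * (n : ℝ) / R + 2 * n * (m * 3) / R ≤ ε / 3 := by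
    rw [← add_div, div_le_iff₀ hR0]
    linarith
  linarith

/-- coefficients of the blown-up forms -/
def b4_a {ι : Type} [DecidableEq ι] (A : ι → Fin 3 → ι → ℤ) (t : ι × Finset ι) (i : Fin 3) :
    ι ⊕ ι → ℤ :=
  Sum.elim (fun k => if k ∈ t.2 then 0 else A t.1 i k) fun k => if k ∈ t.2 then A t.1 i k else 0

theorem b4_lin {ι : Type} [Fintype ι] [DecidableEq ι] (M : ℕ) (A : ι → Fin 3 → ι → ℤ)
    (t : ι × Finset ι) (x y : ι → ZMod M) :
    lin M (b4_a A t) (Sum.elim x y) = lin M (A t.1) (t.2.piecewise y x) := by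
  funext i
  simp only [lin]
  rw [Fintype.sum_sum_type, ← sum_add_distrib]
  refine sum_congr rfl fun k _ => ?_
  by_cases hk : k ∈ t.2 <;> simp [b4_a, hk]

theorem b4_sep {ι : Type} [DecidableEq ι] [Nontrivial ι] (A : ι → Fin 3 → ι → ℤ) (cf : Fin 3 → ℕ)
    (p : ℕ) (T : Finset (ι × Finset ι)) (hT : ∀ t ∈ T, t.1 ∉ t.2)
    (h0 : ∀ t ∈ T, ∀ i, A t.1 i t.1 = 0)
    (h1 : ∀ t ∈ T, ∀ k, k ≠ t.1 → ¬ (p : ℤ) ∣ ∑ i, (cf i : ℤ) * A t.1 i k) :
    SepP (fun s v => ∑ i, (cf i : ℤ) * b4_a A s i v) T p := by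
  have ex : ∀ s ∈ T, ∀ k, k ≠ s.1 →
      (k ∉ s.2 ∧ ¬ (p : ℤ) ∣ ∑ i, (cf i : ℤ) * b4_a A s i (Sum.inl k)) ∨
      (k ∈ s.2 ∧ ¬ (p : ℤ) ∣ ∑ i, (cf i : ℤ) * b4_a A s i (Sum.inr k)) := by
    intro s hs k hk
    by_cases h : k ∈ s.2
    · refine Or.inr ⟨h, ?_⟩
      simp only [b4_a, Sum.elim_inr, if_pos h]
      exact h1 s hs k hk
    · refine Or.inl ⟨h, ?_⟩
      simp only [b4_a, Sum.elim_inl, if_neg h]
      exact h1 s hs k hk
  refine ⟨fun s hs => ?_, fun s hs s' hs' hne => ?_⟩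
  · obtain ⟨k, hk⟩ := exists_ne s.1
    rcases ex s hs k hk with h | h <;> exact ⟨_, h.2⟩
  · by_cases hj : s'.1 = s.1
    · have h2 : s.2 ≠ s'.2 := fun h2 => hne (Prod.ext hj.symm h2)
      obtain ⟨k, hk⟩ : ∃ k, ¬ (k ∈ s.2 ↔ k ∈ s'.2) := by
        by_contra hc
        apply h2
        ext k
        by_contra hc'
        exact hc ⟨k, hc'⟩
      have hks : k ≠ s.1 := by
        intro h
        apply hk
        have a1 : k ∉ s.2 := h ▸ hT s hs
        have a2 : k ∉ s'.2 := by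
          rw [h, ← hj]
          exact hT s' hs'
        simp [a1, a2]
      rcases ex s hs k hks with h | h
      · refine ⟨_, h.2, ?_⟩
        have h3 : k ∈ s'.2 := by
          by_contra h3
          exact hk (by simp [h.1, h3])
        simp only [b4_a, Sum.elim_inl, if_pos h3, mul_zero, sum_const_zero]
      · refine ⟨_, h.2, ?_⟩
        have h3 : k ∉ s'.2 := by
          intro h3
          exact hk (by simp [h.1, h3])
        simp only [b4_a, Sum.elim_inr, if_neg h3, mul_zero, sum_const_zero]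
    · rcases ex s hs s'.1 hj with h | h
      · refine ⟨_, h.2, ?_⟩
        simp only [b4_a, Sum.elim_inl, h0 s' hs', ite_self, mul_zero, sum_const_zero]
      · refine ⟨_, h.2, ?_⟩
        simp only [b4_a, Sum.elim_inr, h0 s' hs', ite_self, mul_zero, sum_const_zero]

theorem b4_gen (ι : Type) [Fintype ι] [DecidableEq ι] [Nontrivial ι] (m : ℕ) (η : ℝ) (hη : 0 < η) :
    ∃ w Y₀ : ℕ, ∀ (M : ℕ) [NeZero M], M.Prime → ∀ (P : Finset ℕ) (Y q r : ℕ) (cf : Fin 3 → ℕ),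
      Y₀ ≤ Y → Y ^ (8 * m + 2) ≤ M → (∀ p ∈ P, p.Prime ∧ w < p ∧ p ≤ Y ∧ ¬ p ∣ q) →
      ∀ (A : ι → Fin 3 → ι → ℤ) (T : Finset (ι × Finset ι)), T.card ≤ m → (∀ t ∈ T, t.1 ∉ t.2) →
        (∀ j i k, |A j i k| ≤ 1) → (∀ j i, ∃ k, A j i k ≠ 0) → (∀ t ∈ T, ∀ i, A t.1 i t.1 = 0) →
        (∀ p ∈ P, ∀ t ∈ T, ∀ k, k ≠ t.1 → ¬ (p : ℤ) ∣ ∑ i, (cf i : ℤ) * A t.1 i k) →
        |av (fun z : (ι → ZMod M) × (ι → ZMod M) =>
          ∏ t ∈ T, nu3 P Y q r cf M (lin M (A t.1) (t.2.piecewise z.2 z.1))) - 1| ≤ η := by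
  obtain ⟨w, Y₀, h⟩ := lf_core3 (ι ⊕ ι) m η hη
  refine ⟨w, Y₀, fun M _ hM P Y q r cf hY hYM hP A T hc hT a1 a2 a3 a4 => ?_⟩
  have h1 := h M hM P Y q r cf hY hYM hP _ (b4_a A) T hc (fun s i v => ?_) (fun s _ i => ?_)
    fun p hp => b4_sep A cf p T hT a3 (a4 p hp)
  · rw [av_sumElim] at h1
    rw [av_prod]
    simp only [b4_lin] at h1
    exact h1
  · rcases v with k | k
    · simp only [b4_a, Sum.elim_inl]
      split_ifs
      · simp
      · exact a1 _ _ _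
    · simp only [b4_a, Sum.elim_inr]
      split_ifs
      · exact a1 _ _ _
      · simp
  · obtain ⟨k, hk⟩ := a2 s.1 i
    by_cases h : k ∈ s.2
    · exact ⟨Sum.inr k, by simpa only [b4_a, Sum.elim_inr, if_pos h] using hk⟩
    · exact ⟨Sum.inl k, by simpa only [b4_a, Sum.elim_inl, if_neg h] using hk⟩

theorem b4_nd {p a e : ℕ} (hp : p.Prime) (h2 : 2 < p) (h1 : ¬ p ∣ a) (h3 : ¬ p ∣ a + e)
    (h4 : ¬ p ∣ a + 2 * e) (h5 : ¬ p ∣ e) (B : Fin 3 → ℤ)
    (h : (B 0 + 2 * B 1 + B 2, 2 * B 1 + B 2) ∈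
      [((1 : ℤ), (0 : ℤ)), (2, 2), (1, 1), (-1, -1), (1, 2), (-1, -2), (0, 1), (0, -1)]) :
    ¬ (p : ℤ) ∣ ∑ i, ((![a, 2 * (a + e), a + e] i : ℕ) : ℤ) * B i := by
  have e1 : ∑ i, ((![a, 2 * (a + e), a + e] i : ℕ) : ℤ) * B i =
      (B 0 + 2 * B 1 + B 2) * a + (2 * B 1 + B 2) * e := by
    rw [Fin.sum_univ_three]
    simp only [Matrix.cons_val_zero, Matrix.cons_val_one, Matrix.cons_val]
    push_cast
    ring
  have h6 : ¬ p ∣ 2 * (a + e) := fun h => by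
    rcases (Nat.Prime.dvd_mul hp).1 h with h | h
    · exact absurd (Nat.le_of_dvd two_pos h) (by omega)
    · exact h3 h
  have key : ∀ (n : ℕ) (x : ℤ), ¬ p ∣ n → (x = n ∨ x = -n) → ¬ (p : ℤ) ∣ x := by
    rintro n x hn (rfl | rfl) hx
    · exact hn (Int.natCast_dvd_natCast.1 hx)
    · exact hn (Int.natCast_dvd_natCast.1 ((dvd_neg).1 hx))
  rw [e1]
  simp only [List.mem_cons, Prod.mk.injEq, List.not_mem_nil, or_false] at h
  rcases h with ⟨u, v⟩ | ⟨u, v⟩ | ⟨u, v⟩ | ⟨u, v⟩ | ⟨u, v⟩ | ⟨u, v⟩ | ⟨u, v⟩ | ⟨u, v⟩ <;> rw [u, v]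
  · exact key _ _ h1 (Or.inl (by ring))
  · exact key _ _ h6 (Or.inl (by push_cast; ring))
  · exact key _ _ h3 (Or.inl (by push_cast; ring))
  · exact key _ _ h3 (Or.inr (by push_cast; ring))
  · exact key _ _ h4 (Or.inl (by push_cast; ring))
  · exact key _ _ h4 (Or.inr (by push_cast; ring))
  · exact key _ _ h5 (Or.inl (by ring))
  · exact key _ _ h5 (Or.inr (by ring))

theorem lf47 (η : ℝ) (hη : 0 < η) : ∃ w Y₀ : ℕ, ∀ (M : ℕ) [NeZero M], M.Prime →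
    ∀ (P : Finset ℕ) (Y q r a e : ℕ), Y₀ ≤ Y → Y ^ 7170 ≤ M →
      (∀ p ∈ P, p.Prime ∧ w < p ∧ p ≤ Y ∧ ¬ p ∣ q ∧ ¬ p ∣ a ∧ ¬ p ∣ a + e ∧ ¬ p ∣ a + 2 * e ∧
        ¬ p ∣ e) →
      LF (fun (j : Fin 4) (x : Fin 4 → ZMod M) =>
        nu3 P Y q r ![a, 2 * (a + e), a + e] M (lin M (A4 j) x)) η ∧
      LF (fun (j : Fin 7) (x : Fin 7 → ZMod M) =>
        if j = 0 then nu3 P Y q r ![a, 2 * (a + e), a + e] M (lin M A7 x) else 1) η := by
  obtain ⟨w₁, Y₁, H₁⟩ := b4_gen (Fin 4) 896 η hη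
  obtain ⟨w₂, Y₂, H₂⟩ := b4_gen (Fin 7) 896 η hη
  refine ⟨w₁ + w₂ + 2, Y₁ + Y₂, fun M _ hM P Y q r a e hY hYM hP => ⟨fun T hT => ?_, fun T hT => ?_⟩⟩
  · refine H₁ M hM P Y q r _ ((Nat.le_add_right _ _).trans hY) hYM (fun p hp => ?_) A4 T ?_ hT (by decide) (by decide)
      (fun t _ => (by decide : ∀ (j : Fin 4) (i : Fin 3), A4 j i j = 0) t.1) fun p hp t _ k hk => ?_
    · obtain ⟨a1, a2, a3, a4, -⟩ := hP p hp
      exact ⟨a1, by omega, a3, a4⟩
    · refine (card_le_univ T).trans ?_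
      simp [Fintype.card_prod, Fintype.card_finset]
    · obtain ⟨a1, a2, -, -, a5, a6, a7, a8⟩ := hP p hp
      refine b4_nd a1 (by omega) a5 a6 a7 a8 (fun i => A4 t.1 i k) ?_
      revert hk
      generalize t.1 = j
      revert j k
      decide
  · simp only [← prod_filter]
    refine H₂ M hM P Y q r _ ((Nat.le_add_left _ _).trans hY) hYM (fun p hp => ?_) (fun _ => A7)
      (T.filter fun t => t.1 = 0) ?_ (fun t ht => hT t (mem_filter.1 ht).1) (fun _ => by decide)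
      (fun _ => by decide) (fun t ht => ?_) fun p hp t ht k hk => ?_
    · obtain ⟨a1, a2, a3, a4, -⟩ := hP p hp
      exact ⟨a1, by omega, a3, a4⟩
    · refine (card_le_univ _).trans ?_
      simp [Fintype.card_prod, Fintype.card_finset]
    · rw [(mem_filter.1 ht).2]
      decide
    · obtain ⟨a1, a2, -, -, a5, a6, a7, a8⟩ := hP p hp
      refine b4_nd a1 (by omega) a5 a6 a7 a8 (fun i => A7 i k) ?_
      rw [(mem_filter.1 ht).2] at hk
      revert k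
      decide

end Pool.Agent.FS.AllLarge
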