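import Pool.Agent.FS.AllLarge.Lf

/-!
Moments of Kloosterman sums, bad classes and the cycle of four moduli.
-/

open Finset
open scoped Classical

noncomputable section

namespace Pool.Agent.FS.AllLarge

open Pool.Agent.Lib.MP_4b8564_nt Pool.Agent.Lib.MP_4b8564_nt.GT

theorem b8_sq (t : ℕ) [NeZero t] : ∑ a : ZMod t, (Sg.KlooAux.T t a).re ^ 2 =
    ∑ y : (ZMod t)ˣ, ∑ x : (ZMod t)ˣ, if (x : ZMod t) + ((x⁻¹ : (ZMod t)ˣ) : ZMod t) +
      -((y : ZMod t) + ((y⁻¹ : (ZMod t)ˣ) : ZMod t)) = 0 then (t : ℝ) else 0 := by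
  have h1 : ∀ a : ZMod t, (Sg.KlooAux.T t a).re ^ 2 = (∑ y : (ZMod t)ˣ, Sg.KlooAux.T t a *
      ZMod.stdAddChar (a * -((y : ZMod t) + ((y⁻¹ : (ZMod t)ˣ) : ZMod t)))).re := fun a => by
    have e : ∑ y : (ZMod t)ˣ, ZMod.stdAddChar
        (a * -((y : ZMod t) + ((y⁻¹ : (ZMod t)ˣ) : ZMod t))) = Sg.KlooAux.T t (-a) :=
      sum_congr rfl fun y _ => by rw [mul_neg, neg_mul]
    rw [← mul_sum, e, Sg.KlooAux.T_neg, Complex.mul_re, Sg.KlooAux.T_im]
    ring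
  rw [sum_congr rfl fun a _ => h1 a, ← Complex.re_sum, sum_comm, Complex.re_sum]
  refine sum_congr rfl fun y _ => ?_
  rw [BothAux.inv_sum, Complex.re_sum]
  refine sum_congr rfl fun x _ => ?_
  split_ifs <;> simp

theorem b8_row (t : ℕ) [Fact t.Prime] (y : (ZMod t)ˣ) :
    2 * (t : ℝ) - (if y = 1 then (t : ℝ) else 0) - (if y = -1 then (t : ℝ) else 0) ≤
      ∑ x : (ZMod t)ˣ, if (x : ZMod t) + ((x⁻¹ : (ZMod t)ˣ) : ZMod t) +
        -((y : ZMod t) + ((y⁻¹ : (ZMod t)ˣ) : ZMod t)) = 0 then (t : ℝ) else 0 := by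
  have h0 : (0 : ℝ) ≤ t := Nat.cast_nonneg t
  have hs : ∀ S : Finset (ZMod t)ˣ, (∀ x ∈ S, x = y ∨ x = y⁻¹) → (S.card : ℝ) * t ≤
      ∑ x : (ZMod t)ˣ, if (x : ZMod t) + ((x⁻¹ : (ZMod t)ˣ) : ZMod t) +
        -((y : ZMod t) + ((y⁻¹ : (ZMod t)ˣ) : ZMod t)) = 0 then (t : ℝ) else 0 := fun S hS => by
    refine le_trans ?_ (sum_le_sum_of_subset_of_nonneg (subset_univ S) fun x _ _ => ?_)
    · rw [← nsmul_eq_mul, ← sum_const]
      refine (sum_congr rfl fun x hx => ?_).le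
      rw [if_pos]
      rcases hS x hx with rfl | rfl
      · ring
      · rw [inv_inv]; ring
    · split_ifs
      · exact h0
      · exact le_rfl
  by_cases h : y = y⁻¹
  · have h1 := hs {y} fun x hx => Or.inl (mem_singleton.1 hx)
    rw [card_singleton, Nat.cast_one, one_mul] at h1
    refine le_trans ?_ h1
    have h2 : (y : ZMod t) * y = 1 := by
      have := y.mul_inv
      rwa [← h] at this
    rcases mul_self_eq_one_iff.1 h2 with h3 | h3
    · rw [if_pos (Units.ext h3)]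
      split_ifs <;> linarith
    · rw [if_pos (show y = -1 from Units.ext h3)]
      split_ifs <;> linarith
  · have h1 := hs {y, y⁻¹} fun x hx => by simpa using hx
    rw [card_pair h, Nat.cast_ofNat] at h1
    refine le_trans ?_ h1
    split_ifs <;> linarith

theorem mom2 (t : ℕ) [Fact t.Prime] (h3 : 3 < t) :
    (t : ℝ) ^ 2 - 2 * t - 1 ≤ ∑ a ∈ (univ : Finset (ZMod t)).erase 0, (Sg.KlooAux.T t a).re ^ 2 := by
  have hp : t.Prime := Fact.out
  have h1 := sum_le_sum fun y (_ : y ∈ (univ : Finset (ZMod t)ˣ)) => b8_row t y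
  rw [← b8_sq, sum_sub_distrib, sum_sub_distrib, sum_ite_eq', sum_ite_eq', if_pos (mem_univ _),
    if_pos (mem_univ _), sum_const, card_univ, ZMod.card_units, nsmul_eq_mul,
    Nat.cast_sub (by omega), Nat.cast_one, ← add_sum_erase _ _ (mem_univ (0 : ZMod t)),
    BothAux.T_zero] at h1
  nlinarith

-- BLOCK 9
theorem b9_orth2 (t : ℕ) [NeZero t] {I : Type} [Fintype I] (p q : I → ZMod t) :
    ∑ y : ZMod t × ZMod t, ∑ i, ZMod.stdAddChar (y.1 * p i + y.2 * q i) =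
      (t : ℂ) ^ 2 * ((univ.filter fun i => p i = 0 ∧ q i = 0).card : ℂ) := by
  rw [Finset.sum_comm, Finset.card_filter, Nat.cast_sum, Finset.mul_sum]
  refine Finset.sum_congr rfl fun i _ => ?_
  simp only [AddChar.map_add_eq_mul]
  rw [Fintype.sum_prod_type]
  simp only []
  rw [← Finset.sum_mul_sum, BothAux.orth, BothAux.orth]
  by_cases h1 : p i = 0 <;> by_cases h2 : q i = 0 <;> simp [h1, h2, sq]

theorem b9_cases {F : Type} [Field F] (x y z w : Fˣ) (h1 : (x : F) - y + (z - w) = 0)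
    (h2 : ((x⁻¹ : Fˣ) : F) - (y⁻¹ : Fˣ) + ((z⁻¹ : Fˣ) - (w⁻¹ : Fˣ)) = 0) :
    (y = x ∧ w = z) ∨ (w = x ∧ z = y) ∨ (z = -x ∧ w = -y) := by
  have hx := x.ne_zero
  have hy := y.ne_zero
  have hz := z.ne_zero
  have hw := w.ne_zero
  simp only [Units.val_inv_eq_inv_val] at h2
  simp only [Units.ext_iff, Units.val_neg]
  have h3 : ((x : F) + z) * ((y : F) * w - x * z) = 0 := by
    field_simp at h2
    linear_combination h2 - (x : F) * z * h1
  rcases mul_eq_zero.1 h3 with h | h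
  · exact Or.inr (Or.inr ⟨by linear_combination h, by linear_combination h - h1⟩)
  · have h4 : ((y : F) - x) * ((w : F) - x) = 0 := by linear_combination h + (x : F) * h1
    rcases mul_eq_zero.1 h4 with h5 | h5
    · exact Or.inl ⟨by linear_combination h5, by linear_combination -h1 - h5⟩
    · exact Or.inr (Or.inl ⟨by linear_combination h5, by linear_combination h1 + h5⟩)

theorem b9_count (t : ℕ) [Fact t.Prime] :
    (univ.filter fun i : ((ZMod t)ˣ × (ZMod t)ˣ) × ((ZMod t)ˣ × (ZMod t)ˣ) =>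
      (i.1.1 : ZMod t) - i.1.2 + (i.2.1 - i.2.2) = 0 ∧
      ((i.1.1⁻¹ : (ZMod t)ˣ) : ZMod t) - (i.1.2⁻¹ : (ZMod t)ˣ) + ((i.2.1⁻¹ : (ZMod t)ˣ) - (i.2.2⁻¹ : (ZMod t)ˣ)) = 0).card ≤
      3 * Fintype.card (ZMod t)ˣ ^ 2 := by
  have hc : (univ : Finset ((ZMod t)ˣ × (ZMod t)ˣ)).card = Fintype.card (ZMod t)ˣ ^ 2 := by
    rw [card_univ, Fintype.card_prod, sq]
  have a1 := card_image_le (s := (univ : Finset ((ZMod t)ˣ × (ZMod t)ˣ)))
    (f := fun p : (ZMod t)ˣ × (ZMod t)ˣ => ((p.1, p.1), (p.2, p.2)))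
  have a2 := card_image_le (s := (univ : Finset ((ZMod t)ˣ × (ZMod t)ˣ)))
    (f := fun p : (ZMod t)ˣ × (ZMod t)ˣ => ((p.1, p.2), (p.2, p.1)))
  have a3 := card_image_le (s := (univ : Finset ((ZMod t)ˣ × (ZMod t)ˣ)))
    (f := fun p : (ZMod t)ˣ × (ZMod t)ˣ => ((p.1, p.2), (-p.1, -p.2)))
  rw [hc] at a1 a2 a3
  refine le_trans (card_le_card (t := (univ.image fun p : (ZMod t)ˣ × (ZMod t)ˣ => ((p.1, p.1), (p.2, p.2))) ∪
    ((univ.image fun p : (ZMod t)ˣ × (ZMod t)ˣ => ((p.1, p.2), (p.2, p.1))) ∪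
      (univ.image fun p : (ZMod t)ˣ × (ZMod t)ˣ => ((p.1, p.2), (-p.1, -p.2))))) ?_) ?_
  · rintro ⟨⟨x, y⟩, z, w⟩ hi
    obtain ⟨h1, h2⟩ := (mem_filter.1 hi).2
    simp only [mem_union, mem_image, mem_univ, true_and]
    rcases b9_cases x y z w h1 h2 with ⟨e1, e2⟩ | ⟨e1, e2⟩ | ⟨e1, e2⟩
    · exact Or.inl ⟨(x, z), by rw [e1, e2]⟩
    · exact Or.inr (Or.inl ⟨(x, y), by rw [e1, e2]⟩)
    · exact Or.inr (Or.inr ⟨(x, y), by rw [e1, e2]⟩)
  · refine (card_union_le _ _).trans ?_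
    have := card_union_le (univ.image fun p : (ZMod t)ˣ × (ZMod t)ˣ => ((p.1, p.2), (p.2, p.1)))
      (univ.image fun p : (ZMod t)ˣ × (ZMod t)ˣ => ((p.1, p.2), (-p.1, -p.2)))
    omega

theorem b9_four (t : ℕ) [NeZero t] {U : Type} [Fintype U] (f g : U → ZMod t)
    (y : ZMod t × ZMod t) :
    (((Complex.normSq (∑ x, ZMod.stdAddChar (y.1 * f x + y.2 * g x))) ^ 2 : ℝ) : ℂ) =
      ∑ i : (U × U) × (U × U), ZMod.stdAddChar (y.1 * (f i.1.1 - f i.1.2 + (f i.2.1 - f i.2.2)) +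
        y.2 * (g i.1.1 - g i.1.2 + (g i.2.1 - g i.2.2))) := by
  have h1 : ((Complex.normSq (∑ x, ZMod.stdAddChar (y.1 * f x + y.2 * g x)) : ℝ) : ℂ) =
      ∑ j : U × U, ZMod.stdAddChar (y.1 * (f j.1 - f j.2) + y.2 * (g j.1 - g j.2)) := by
    rw [← Complex.mul_conj, map_sum, Finset.sum_mul_sum, Fintype.sum_prod_type]
    refine Finset.sum_congr rfl fun a _ => Finset.sum_congr rfl fun b _ => ?_
    rw [← AddChar.map_neg_eq_conj, ← AddChar.map_add_eq_mul]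
    congr 1
    ring
  rw [Complex.ofReal_pow, h1, sq, Finset.sum_mul_sum, Fintype.sum_prod_type (α₁ := U × U)]
  refine Finset.sum_congr rfl fun a _ => Finset.sum_congr rfl fun b _ => ?_
  rw [← AddChar.map_add_eq_mul]
  congr 1
  ring

theorem mom4 (t : ℕ) [Fact t.Prime] (h3 : 3 < t) :
    ∑ a ∈ (univ : Finset (ZMod t)).erase 0, (Sg.KlooAux.T t a).re ^ 4 ≤ 8 * (t : ℝ) ^ 3 := by
  set G : ZMod t × ZMod t → ℝ := fun y => Complex.normSq (∑ x : (ZMod t)ˣ,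
    ZMod.stdAddChar (y.1 * (x : ZMod t) + y.2 * ((x⁻¹ : (ZMod t)ˣ) : ZMod t))) ^ 2 with hG
  have G0 : ∀ y, 0 ≤ G y := fun y => sq_nonneg _
  set n := Fintype.card (ZMod t)ˣ with hn
  have n0 : 0 < n := Fintype.card_pos
  have nt : n ≤ t := by
    have := Fintype.card_le_of_injective (Units.val : (ZMod t)ˣ → ZMod t) Units.val_injective
    rwa [ZMod.card] at this
  have tot : ∑ y, G y ≤ (t : ℝ) ^ 2 * (3 * (n : ℝ) ^ 2) := by
    have e := b9_orth2 t (I := ((ZMod t)ˣ × (ZMod t)ˣ) × ((ZMod t)ˣ × (ZMod t)ˣ))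
      (fun i => (i.1.1 : ZMod t) - i.1.2 + (i.2.1 - i.2.2))
      (fun i => ((i.1.1⁻¹ : (ZMod t)ˣ) : ZMod t) - (i.1.2⁻¹ : (ZMod t)ˣ) +
        ((i.2.1⁻¹ : (ZMod t)ˣ) - (i.2.2⁻¹ : (ZMod t)ˣ)))
    rw [← Finset.sum_congr rfl fun y _ => b9_four t (fun x : (ZMod t)ˣ => (x : ZMod t))
      (fun x : (ZMod t)ˣ => ((x⁻¹ : (ZMod t)ˣ) : ZMod t)) y] at e
    have c := b9_count t
    obtain ⟨N, hN, e⟩ : ∃ N : ℕ, N ≤ 3 * n ^ 2 ∧ ∑ y, ((G y : ℝ) : ℂ) = (t : ℂ) ^ 2 * (N : ℂ) :=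
      ⟨_, c, e⟩
    have e' : ∑ y, G y = (t : ℝ) ^ 2 * N := by exact_mod_cast e
    rw [e']
    exact mul_le_mul_of_nonneg_left (by exact_mod_cast hN) (by positivity)
  set φ : ZMod t × (ZMod t)ˣ → ZMod t × ZMod t :=
    fun p => (p.1 * (p.2 : ZMod t), p.1 * ((p.2⁻¹ : (ZMod t)ˣ) : ZMod t)) with hφ
  have hT : ∀ p : ZMod t × (ZMod t)ˣ, (Sg.KlooAux.T t p.1).re ^ 4 ≤ G (φ p) := by
    rintro ⟨a, u⟩
    have e : ∑ x : (ZMod t)ˣ, ZMod.stdAddChar (a * (u : ZMod t) * (x : ZMod t) +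
        a * ((u⁻¹ : (ZMod t)ˣ) : ZMod t) * ((x⁻¹ : (ZMod t)ˣ) : ZMod t)) = Sg.KlooAux.T t a := by
      unfold Sg.KlooAux.T
      refine Fintype.sum_equiv (Equiv.mulLeft u) _ _ fun x => ?_
      congr 1
      simp only [Equiv.coe_mulLeft, mul_inv, Units.val_mul]
      ring
    show _ ≤ Complex.normSq _ ^ 2
    simp only [hφ]
    rw [e, Complex.normSq_apply, show (Sg.KlooAux.T t a).re ^ 4 =
      ((Sg.KlooAux.T t a).re * (Sg.KlooAux.T t a).re) ^ 2 by ring]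
    exact pow_le_pow_left₀ (mul_self_nonneg _) (le_add_of_nonneg_right (mul_self_nonneg _)) 2
  set s : Finset (ZMod t × (ZMod t)ˣ) := ((univ : Finset (ZMod t)).erase 0) ×ˢ univ with hs
  have fib : ∀ y ∈ s.image φ, (s.filter fun p => φ p = y).card ≤ 2 := by
    intro y hy
    obtain ⟨⟨a, u⟩, ha, rfl⟩ := mem_image.1 hy
    have a0 : a ≠ 0 := ne_of_mem_erase (mem_product.1 ha).1
    refine le_trans (card_le_card (t := {(a, u), (-a, -u)}) ?_) card_le_two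
    rintro ⟨b, v⟩ hb
    have e := (mem_filter.1 hb).2
    simp only [hφ, Prod.mk.injEq, Units.val_inv_eq_inv_val] at e
    obtain ⟨e1, e2⟩ := e
    have hu := u.ne_zero
    have hv := v.ne_zero
    have e3 : (b - a) * (b + a) = 0 := by
      have : b * (v : ZMod t) * (b * (v : ZMod t)⁻¹) = a * (u : ZMod t) * (a * (u : ZMod t)⁻¹) := by
        rw [e1, e2]
      field_simp at this
      linear_combination this
    simp only [mem_insert, mem_singleton, Prod.mk.injEq, Units.ext_iff, Units.val_neg]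
    rcases mul_eq_zero.1 e3 with h | h
    · have hb' : b = a := by linear_combination h
      rw [hb'] at e1
      exact Or.inl ⟨hb', mul_left_cancel₀ a0 e1⟩
    · have hb' : b = -a := by linear_combination h
      rw [hb'] at e1
      exact Or.inr ⟨hb', mul_left_cancel₀ a0 (by linear_combination -e1)⟩
  have h1 : (n : ℝ) * ∑ a ∈ (univ : Finset (ZMod t)).erase 0, (Sg.KlooAux.T t a).re ^ 4 ≤
      2 * ∑ y, G y := by
    calc (n : ℝ) * ∑ a ∈ (univ : Finset (ZMod t)).erase 0, (Sg.KlooAux.T t a).re ^ 4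
        = ∑ p ∈ s, (Sg.KlooAux.T t p.1).re ^ 4 := by
          rw [hs, Finset.sum_product, Finset.mul_sum]
          refine Finset.sum_congr rfl fun a _ => ?_
          simp only [Finset.sum_const, card_univ, nsmul_eq_mul, hn]
      _ ≤ ∑ p ∈ s, G (φ p) := Finset.sum_le_sum fun p _ => hT p
      _ = ∑ y ∈ s.image φ, (s.filter fun p => φ p = y).card • G y := Finset.sum_comp G φ
      _ ≤ ∑ y ∈ s.image φ, 2 * G y := Finset.sum_le_sum fun y hy => by
          rw [nsmul_eq_mul]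
          exact mul_le_mul_of_nonneg_right (by exact_mod_cast fib y hy) (G0 y)
      _ ≤ ∑ y, 2 * G y := Finset.sum_le_sum_of_subset_of_nonneg (subset_univ _)
          fun y _ _ => mul_nonneg zero_le_two (G0 y)
      _ = 2 * ∑ y, G y := (Finset.mul_sum _ _ _).symm
  have n0' : (0 : ℝ) < n := by exact_mod_cast n0
  have nt' : (n : ℝ) ≤ t := by exact_mod_cast nt
  have t0 : (0 : ℝ) ≤ t := Nat.cast_nonneg _
  refine le_of_mul_le_mul_left (h1.trans ?_) n0'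
  have h2 : (n : ℝ) * ((t : ℝ) ^ 2 * n) ≤ n * ((t : ℝ) ^ 2 * t) := by gcongr
  have h4 : (0 : ℝ) ≤ n * (t : ℝ) ^ 3 := by positivity
  nlinarith

lemma b10_poly {r x : ℝ} (hr : 0 < r) :
    4 / 3 * r ^ 3 * x + r ^ 2 * x ^ 2 - x ^ 4 / 12 ≤ if 0 < x then 7 * r ^ 4 else 0 := by
  split_ifs with h
  · nlinarith [sq_nonneg (x ^ 2 - 15 / 2 * r ^ 2), mul_nonneg (sq_nonneg r) (sq_nonneg (x - 8 / 3 * r)),
      pow_pos hr 4]
  · have h1 : 0 ≤ -x * (x + 2 * r) ^ 2 * (4 * r - x) :=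
      mul_nonneg (mul_nonneg (by linarith) (sq_nonneg _)) (by linarith)
    nlinarith

open Sg.KlooAux BothAux in
lemma b10_many (t : ℕ) [Fact t.Prime] (h4 : t % 4 = 3) (ht : 400 ≤ t) {ε : ℝ}
    (hε : ε = 1 ∨ ε = -1) : (t : ℝ) ≤
      30 * (((univ : Finset (ZMod t)).erase 0).filter fun a => 0 < ε * (T t a).re).card := by
  have t0 : (400 : ℝ) ≤ t := by exact_mod_cast ht
  obtain ⟨r, hr, rr⟩ : ∃ r : ℝ, 20 ≤ r ∧ r ^ 2 = t :=
    ⟨Real.sqrt t, Real.le_sqrt_of_sq_le (by linarith), Real.sq_sqrt (by linarith)⟩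
  have r0 : 0 < r := by linarith
  have m1 : ∑ a ∈ (univ : Finset (ZMod t)).erase 0, (T t a).re = 1 - t := by
    have := add_sum_erase (univ : Finset (ZMod t)) (fun a => (T t a).re) (mem_univ 0)
    rw [sum_T t h4, T_zero] at this
    linarith
  have m2 := mom2 t (by omega)
  have m4 := mom4 t (by omega)
  have e2 : ε ^ 2 = 1 := by rcases hε with h | h <;> rw [h] <;> norm_num
  have e4 : ε ^ 4 = 1 := by rcases hε with h | h <;> rw [h] <;> norm_num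
  have h := sum_le_sum fun a (_ : a ∈ (univ : Finset (ZMod t)).erase 0) =>
    b10_poly (x := ε * (T t a).re) r0
  rw [← sum_filter, sum_const, nsmul_eq_mul] at h
  simp only [mul_pow, e2, e4, one_mul] at h
  rw [sum_sub_distrib, sum_add_distrib, ← mul_sum, ← mul_sum, ← mul_sum, ← sum_div, m1] at h
  have h1 : -r ^ 2 ≤ ε * (1 - t) := by rcases hε with h | h <;> rw [h] <;> linarith
  rw [← rr] at m2 m4 ⊢
  generalize (((((univ : Finset (ZMod t)).erase 0).filter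
    fun a => 0 < ε * (T t a).re).card : ℕ) : ℝ) = N at h ⊢
  have a1 := mul_le_mul_of_nonneg_left h1 (by positivity : 0 ≤ 4 / 3 * r ^ 3)
  have a2 := mul_le_mul_of_nonneg_left m2 (by positivity : 0 ≤ r ^ 2)
  have a3 : 20 * r ^ 5 ≤ r ^ 6 := by nlinarith [pow_pos r0 5]
  have a4 : 20 * r ^ 4 ≤ r ^ 5 := by nlinarith [pow_pos r0 4]
  have a5 : r ^ 2 ≤ r ^ 4 := pow_le_pow_right₀ (by linarith) (by norm_num)
  have a6 : r ^ 4 * r ^ 2 ≤ r ^ 4 * (30 * N) := by nlinarith [pow_pos r0 4]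
  exact le_of_mul_le_mul_left a6 (by positivity)

open Sg Sg.KlooAux Sg.CountAux BothAux in
lemma b10_key (t : ℕ) [Fact t.Prime] (h4 : t % 4 = 3) {v : ℕ} (hv0 : (v : ZMod t) ≠ 0)
    (a : ZMod t) (ha : a ≠ 0) : ∃ α : ℕ, α < t ∧ R t (α * α * v) = (T t a).re ∧
      (a = ((α : ZMod t) * α * v)⁻¹ ∨ a = -((α : ZMod t) * α * v)⁻¹) := by
  obtain ⟨z, hz, h⟩ := sq_or t h4 (w := (a * v)⁻¹) (inv_ne_zero (mul_ne_zero ha hv0))
  refine ⟨z.val, ZMod.val_lt z, ?_, ?_⟩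
  · rw [R_eq, S]
    push_cast
    rw [ZMod.natCast_zmod_val]
    rcases h with h | h
    · rw [h]
      congr 2
      field_simp
    · rw [h, ← T_neg t a]
      congr 2
      field_simp
  · rw [ZMod.natCast_zmod_val]
    rcases h with h | h
    · left
      rw [h]
      field_simp
    · right
      rw [h]
      field_simp

theorem share : ∃ θ : ℝ, 0 ≤ θ ∧ θ < 1 ∧ ∃ t₀ : ℕ, ∀ t : ℕ, t₀ ≤ t → t.Prime → t % 4 = 3 →
    ∀ v : ℕ, Nat.Coprime v t → ∀ τ : ℝ,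
      (((range t).filter fun α => Nat.Coprime α t ∧ 0 < τ * R t (α * α * v)).card : ℝ) ≤ θ * t := by
  refine ⟨59 / 60, by norm_num, by norm_num, 400, fun t ht hp h4 v hv τ => ?_⟩
  have := Fact.mk hp
  have hv0 : (v : ZMod t) ≠ 0 := by
    rw [Ne, ZMod.natCast_eq_zero_iff]
    exact (Nat.Prime.coprime_iff_not_dvd hp).1 hv.symm
  obtain ⟨ε, hε, hτ⟩ : ∃ ε : ℝ, (ε = 1 ∨ ε = -1) ∧ ∀ x : ℝ, 0 < ε * x → ¬ 0 < τ * x := by
    rcases le_total τ 0 with h | h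
    · exact ⟨1, Or.inl rfl, fun x hx => not_lt.2 (by nlinarith)⟩
    · exact ⟨-1, Or.inr rfl, fun x hx => not_lt.2 (by nlinarith)⟩
  have h1 := b10_many t h4 ht hε
  choose! f f1 f2 f3 using b10_key t h4 hv0
  have h2 := card_le_mul_card_image_of_maps_to (f := f)
    (s := ((univ : Finset (ZMod t)).erase 0).filter fun a => 0 < ε * (Sg.KlooAux.T t a).re)
    (t := (range t).filter fun α => ¬ (Nat.Coprime α t ∧ 0 < τ * R t (α * α * v)))
    (fun a ha => by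
      obtain ⟨a1, a2⟩ := mem_filter.1 ha
      have a0 := ne_of_mem_erase a1
      refine mem_filter.2 ⟨mem_range.2 (f1 a a0), fun h => hτ _ a2 ?_⟩
      rw [← f2 a a0]
      exact h.2) 2 fun α _ => by
      refine (card_le_card (t := {((α : ZMod t) * α * v)⁻¹, -((α : ZMod t) * α * v)⁻¹})
        fun a ha => ?_).trans card_le_two
      obtain ⟨a1, a2⟩ := mem_filter.1 ha
      have a3 := f3 a (ne_of_mem_erase (mem_filter.1 a1).1)
      rw [a2] at a3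
      exact mem_insert.2 (a3.imp id mem_singleton.2)
  have h3 := card_filter_add_card_filter_not (s := range t)
    fun α => Nat.Coprime α t ∧ 0 < τ * R t (α * α * v)
  rw [card_range] at h3
  have h4 := (Nat.cast_le (α := ℝ)).2 h2
  have h5 := congrArg (Nat.cast : ℕ → ℝ) h3
  push_cast at h4 h5
  linarith

theorem b11_mod {c M : ℕ} (h : c ∣ M) (b : ℕ) : ((b % M : ℕ) : ZMod c) = b :=
  (ZMod.natCast_eq_natCast_iff _ _ _).2 ((Nat.mod_modEq b M).of_dvd h)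

theorem b11_step {M t : ℕ} (hc : Nat.Coprime M t) (A B : Finset ℕ) (c : ℝ)
    (hB : ∀ b ∈ B, b < M * t) (h1 : ∀ b ∈ B, b % M ∈ A)
    (h2 : ∀ r ∈ A, ∃ C : Finset ℕ, (C.card : ℝ) ≤ c ∧ ∀ b ∈ B, b % M = r → b % t ∈ C) :
    (B.card : ℝ) ≤ c * A.card := by
  rw [card_eq_sum_card_fiberwise (f := fun b => b % M)
    (fun b hb => mem_coe.2 (h1 b (mem_coe.1 hb))), Nat.cast_sum, mul_comm, ← nsmul_eq_mul]
  refine sum_le_card_nsmul _ _ _ fun r hr => ?_
  obtain ⟨C, hC, hCm⟩ := h2 r hr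
  refine le_trans (Nat.cast_le.2 (card_le_card_of_injOn (fun b => b % t) (fun b hb => ?_)
    fun b hb b' hb' h => ?_)) hC
  · obtain ⟨hb1, hb2⟩ := mem_filter.1 (mem_coe.1 hb)
    exact mem_coe.2 (hCm b hb1 hb2)
  · obtain ⟨hb1, hb2⟩ := mem_filter.1 (mem_coe.1 hb)
    obtain ⟨hb1', hb2'⟩ := mem_filter.1 (mem_coe.1 hb')
    have a1 : b ≡ b' [MOD M] := hb2.trans hb2'.symm
    have a2 : b ≡ b' [MOD t] := h
    exact ((Nat.modEq_and_modEq_iff_modEq_mul hc).1 ⟨a1, a2⟩).eq_of_lt_of_lt (hB b hb1) (hB b' hb1')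

theorem bad_count2 (T : Finset ℕ) (a v : ℕ → ℕ) (σ : ℕ → ℕ → ℝ) (M : ℕ) (hM : 0 < M) (θ : ℝ)
    (hθ : 0 ≤ θ) (ha : ∀ j ∈ T, (a j).Prime ∧ Nat.Coprime M (a j) ∧ v j ∣ M)
    (hinj : Set.InjOn a T) (hσ : ∀ j ∈ T, ∀ b, σ j b = σ j (b % M))
    (hsh : ∀ j ∈ T, ∀ u : ℕ, Nat.Coprime u (a j) → ∀ τ : ℝ, (((range (a j)).filter fun α =>
      Nat.Coprime α (a j) ∧ 0 < τ * R (a j) (α * α * u)).card : ℝ) ≤ θ * a j) :
    (((range (M * ∏ j ∈ T, a j)).filter fun b => Nat.Coprime b (M * ∏ j ∈ T, a j) ∧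
      ∀ j ∈ T, 0 < σ j b * R (v j * a j) (b * b)).card : ℝ) ≤
      Nat.totient M * ∏ j ∈ T, (θ * a j) := by
  induction T using Finset.induction_on with
  | empty =>
    rw [prod_empty, prod_empty, mul_one, mul_one, Nat.totient_eq_card_coprime]
    exact Nat.cast_le.2 (card_le_card fun b hb =>
      mem_filter.2 ⟨(mem_filter.1 hb).1, (mem_filter.1 hb).2.1.symm⟩)
  | insert j T hjT ih =>
    have ih' := ih (fun s hs => ha s (mem_insert_of_mem hs))
      (hinj.mono (coe_subset.2 (subset_insert _ _)))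
      (fun s hs => hσ s (mem_insert_of_mem hs)) (fun s hs => hsh s (mem_insert_of_mem hs))
    obtain ⟨hp, hMt, hg⟩ := ha j (mem_insert_self _ _)
    have hg0 : v j ≠ 0 := fun e => hM.ne' (zero_dvd_iff.1 (e ▸ hg))
    have hgt : Nat.Coprime (v j) (a j) := Nat.Coprime.coprime_dvd_left hg hMt
    have hco : Nat.Coprime (M * ∏ s ∈ T, a s) (a j) := by
      refine Nat.Coprime.mul_left hMt (Nat.Coprime.prod_left fun s hs => ?_)
      refine (Nat.coprime_primes (ha s (mem_insert_of_mem hs)).1 hp).2 fun e => hjT ?_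
      have := hinj (mem_coe.2 (mem_insert_of_mem hs)) (mem_coe.2 (mem_insert_self _ _)) e
      exact this ▸ hs
    have hpos : 0 < M * ∏ s ∈ T, a s :=
      Nat.mul_pos hM (prod_pos fun s hs => (ha s (mem_insert_of_mem hs)).1.pos)
    have hM1 : M ∣ M * ∏ s ∈ T, a s := dvd_mul_right _ _
    have hg1 : v j ∣ M * ∏ s ∈ T, a s := hg.trans hM1
    have e : M * ∏ s ∈ insert j T, a s = (M * ∏ s ∈ T, a s) * a j := by
      rw [prod_insert hjT]; ring
    have hσ' : ∀ s ∈ insert j T, ∀ b, σ s (b % (M * ∏ s ∈ T, a s)) = σ s b := fun s hs b => by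
      rw [hσ s hs (b % _), Nat.mod_mod_of_dvd _ hM1, ← hσ s hs b]
    rw [e, prod_insert hjT, mul_left_comm]
    refine le_trans (b11_step hco _ _ (θ * a j) (fun b hb => mem_range.1 (mem_filter.1 hb).1)
      (fun b hb => ?_) fun r hr => ?_) (mul_le_mul_of_nonneg_left ih' (by positivity))
    · obtain ⟨-, a1, a2⟩ := mem_filter.1 hb
      refine mem_filter.2 ⟨mem_range.2 (Nat.mod_lt _ hpos), ?_, fun s hs => ?_⟩
      · have := (Nat.Coprime.coprime_mul_right_right a1)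
        rw [Nat.Coprime, ← Nat.gcd_rec, Nat.gcd_comm]
        exact this
      · have hd : v s * a s ∣ M * ∏ s ∈ T, a s :=
          Nat.mul_dvd_mul (ha s (mem_insert_of_mem hs)).2.2 (dvd_prod_of_mem _ hs)
        rw [R_congr (c := v s * a s) (v := b * b)
          (by rw [Nat.cast_mul, Nat.cast_mul, b11_mod hd]), hσ' s (mem_insert_of_mem hs)]
        exact a2 s (mem_insert_of_mem hs)
    · refine ⟨_, hsh j (mem_insert_self _ _) (v j) hgt (σ j r * R (v j) (r * r * a j)),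
        fun b hb a3 => ?_⟩
      obtain ⟨-, a1, a2⟩ := mem_filter.1 hb
      have b1 : Nat.Coprime b (v j) :=
        Nat.Coprime.coprime_dvd_right hg1 (Nat.Coprime.coprime_mul_right_right a1)
      have b2 : Nat.Coprime b (a j) := Nat.Coprime.coprime_mul_left_right a1
      have h := a2 j (mem_insert_self _ _)
      rw [R_mul hg0 hp.ne_zero hgt _ (b1.mul_left b1) (b2.mul_left b2),
        R_congr (c := v j) (u := b * b * a j) (v := r * r * a j) (by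
          rw [← a3]
          simp only [Nat.cast_mul, b11_mod hg1]),
        ← hσ' j (mem_insert_self _ _) b, a3, ← mul_assoc] at h
      refine mem_filter.2 ⟨mem_range.2 (Nat.mod_lt _ hp.pos), ?_, ?_⟩
      · rw [Nat.Coprime, ← Nat.gcd_rec, Nat.gcd_comm]
        exact b2
      · rwa [R_congr (c := a j) (v := b * b * v j)
          (by simp only [Nat.cast_mul, b11_mod dvd_rfl])]

theorem b12_class (P : Finset ℕ) (Y M b L : ℕ) (hsub : P ⊆ Sg.PP 40 Y) (hY : 1 ≤ Y)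
    (hM : ∀ p ∈ P, ¬ p ∣ M) (hL : 2 * Y ^ 6 ≤ L) :
    Sg.GG P Y *
      (((range L).filter fun h => (M * h + b).Prime ∧ Y < M * h + b).card : ℝ) ≤ 4 * L := by
  have hP2 : ∀ p ∈ P, 2 ≤ p := fun p hp => (LFcoreAux.prime_PP (hsub hp)).two_le
  obtain ⟨e, he0, he, hexp⟩ := Sg.expand P hP2 Y hY
  have hG := Sg.one_le_GG P hP2 Y hY
  have hY6 : 0 < Y ^ 6 := by positivity
  have hL0 : 0 < L := by omega
  have hL' : (0 : ℝ) < L := by exact_mod_cast hL0
  have hS : Sep (fun (_ : Unit) (_ : Unit) => (1 : ℤ)) univ 1 :=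
    ⟨fun _ _ => by simp, fun _ _ => ⟨(), one_ne_zero⟩, fun _ _ _ _ h => (h rfl).elim⟩
  have hP : ∀ p ∈ P, p.Prime ∧ 5 ≤ p ∧ 1 < p ∧ ¬ (p : ℤ) ∣ (M : ℤ) := fun p hp => by
    have h1 := (mem_Ioc.1 (mem_filter.1 (hsub hp)).1).1
    exact ⟨LFcoreAux.prime_PP (hsub hp), by omega, by omega,
      fun h => hM p hp (Int.natCast_dvd_natCast.1 h)⟩
  have hb := box_lf (fun (_ : Unit) (_ : Unit) => (1 : ℤ)) univ 1 hS P M b hP (Y ^ 2) L
    (Nat.one_le_pow _ _ hY) hL0 e he0 he fun _ => 0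
  have hE : ∏ p ∈ P, (1 + 4 * 5 ^ (univ : Finset Unit).card / (p : ℝ) ^ 2) ≤ 3 := by
    refine (Finset.prod_le_prod_of_subset_of_one_le hsub (fun p _ => by positivity)
      fun p _ _ => le_add_of_nonneg_right (by positivity)).trans ?_
    refine (LFcoreAux.euler 40 Y _ 1 (by simp)).trans ?_
    have h1 : 8 * 5 ^ 1 / (((40 : ℕ) : ℝ) + 1) ≤ 1 := by norm_num
    have h2 := Real.exp_one_lt_d9
    exact (Real.exp_le_exp.2 h1).trans (by linarith)
  have hE2 : 2 * (Fintype.card Unit : ℝ) * ((Y ^ 2 : ℕ) : ℝ) ^ (3 * (univ : Finset Unit).card) / L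
      ≤ 1 := by
    rw [div_le_one hL']
    have : ((2 * Y ^ 6 : ℕ) : ℝ) ≤ L := by exact_mod_cast hL
    refine le_trans (le_of_eq ?_) this
    simp only [Fintype.card_unique, card_univ]
    push_cast
    ring
  have e1 : bav L (fun h : Unit → ℤ => ∏ _s ∈ (univ : Finset Unit),
      ∑ U ∈ Sg.fam P (Y ^ 2),
        e U * ∏ p ∈ U, gz p ((M : ℤ) * (0 + ∑ v, 1 * h v) + b)) =
      (∑ i ∈ range L, Sg.beta P Y (M * i + b) ^ 2 / Sg.GG P Y) / L := by
    unfold bav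
    rw [← av_equiv (Equiv.funUnique Unit (Fin L)).symm, av, Fintype.card_fin,
      ← Fin.sum_univ_eq_sum_range
        (fun i => Sg.beta P Y (M * i + b) ^ 2 / Sg.GG P Y) L]
    congr 1
    refine sum_congr rfl fun i _ => ?_
    rw [hexp]
    simp only [univ_unique, prod_singleton, sum_singleton, LFcoreAux.gS_eq]
    refine sum_congr rfl fun U _ => ?_
    congr 1
    refine prod_congr rfl fun p _ => ?_
    congr 1
    simp
  have h3 : (∑ i ∈ range L, Sg.beta P Y (M * i + b) ^ 2 / Sg.GG P Y) / L ≤ 4 := by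
    rw [← e1]
    have := (abs_le.1 hb).2
    linarith
  rw [div_le_iff₀ hL'] at h3
  refine le_trans ?_ h3
  rw [mul_comm, ← nsmul_eq_mul, ← sum_const]
  refine le_trans (le_of_eq (sum_congr rfl fun i hi => ?_))
    (sum_le_sum_of_subset_of_nonneg (filter_subset _ _) fun _ _ _ => by positivity)
  obtain ⟨-, h1, h2⟩ := mem_filter.1 hi
  rw [Sg.beta_eq_GG _ _ _ fun p hp hd => ?_, sq, mul_div_assoc, div_self (by linarith), mul_one]
  have h4 := (Nat.prime_dvd_prime_iff_eq (LFcoreAux.prime_PP (hsub hp)) h1).1 hd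
  have h5 := (mem_Ioc.1 (mem_filter.1 (hsub hp)).1).2
  omega

theorem class_leQ (q₀ Y q x : ℕ) (h40 : primorial 40 ∣ q₀) (hq₀ : 0 < q₀) (hY : 1 ≤ Y) (hq : 0 < q)
    (hP : ∀ p ∈ PQ q₀ Y, ¬ p ∣ q) (hx : q * (2 * Y ^ 6) ≤ x) (C : Finset ℕ) (S : Finset ℕ)
    (hS : ∀ p ∈ S, p.Prime ∧ Y < p ∧ p ≤ x ∧ p % q ∈ C) :
    (Nat.totient q₀ : ℝ) / q₀ * Real.log Y * S.card ≤ 8 * C.card * x / q := by
  have hsub : PQ q₀ Y ⊆ Sg.PP 40 Y := fun p hp => by
    obtain ⟨h1, h2, h3⟩ := mem_filter.1 hp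
    refine mem_filter.2 ⟨mem_Ioc.2 ⟨?_, (mem_Ioc.1 h1).2⟩, h2⟩
    by_contra h4
    exact h3 ((h2.dvd_primorial_iff.2 (by omega)).trans h40)
  obtain ⟨L, hL⟩ : ∃ L, L = x / q + 1 := ⟨_, rfl⟩
  have hL1 : 2 * Y ^ 6 ≤ x / q := (Nat.le_div_iff_mul_le hq).2 (by rwa [mul_comm])
  have hY6 : 0 < Y ^ 6 := by positivity
  have hML : q * L ≤ 2 * x := by
    have h1 : q * (x / q) ≤ x := Nat.mul_div_le x q
    have h2 : L ≤ 2 * (x / q) := by omega
    calc q * L ≤ q * (2 * (x / q)) := Nat.mul_le_mul_left _ h2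
      _ = 2 * (q * (x / q)) := by ring
      _ ≤ 2 * x := by omega
  have hmap : ∀ p ∈ S, p % q ∈ C := fun p hp => (hS p hp).2.2.2
  have hG := Sg.one_le_GG (PQ q₀ Y) (fun p hp => (LFcoreAux.prime_PP (hsub hp)).two_le) Y hY
  have h1 : Sg.GG (PQ q₀ Y) Y * S.card ≤ C.card * (4 * L) := by
    rw [card_eq_sum_card_fiberwise hmap]
    push_cast
    rw [mul_sum, ← nsmul_eq_mul, ← sum_const]
    refine sum_le_sum fun b _ => le_trans ?_ (b12_class (PQ q₀ Y) Y q b L hsub hY hP (by omega))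
    refine mul_le_mul_of_nonneg_left ?_ (by linarith)
    refine Nat.cast_le.2 (card_le_card_of_injOn (fun p => p / q) (fun p hp => ?_)
      fun p hp p' hp' h => ?_)
    · obtain ⟨hp1, hp2⟩ := mem_filter.1 (mem_coe.1 hp)
      obtain ⟨h1, h3, h0, -⟩ := hS p hp1
      have e : q * (p / q) + b = p := hp2 ▸ Nat.div_add_mod p q
      refine mem_coe.2 (mem_filter.2 ⟨mem_range.2 ?_, ?_⟩)
      · have : p / q ≤ x / q := Nat.div_le_div_right h0
        change p / q < L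
        omega
      · change (q * (p / q) + b).Prime ∧ Y < q * (p / q) + b
        rw [e]
        exact ⟨h1, h3⟩
    · have e1 := (mem_filter.1 (mem_coe.1 hp)).2
      have e2 := (mem_filter.1 (mem_coe.1 hp')).2
      have h' : p / q = p' / q := h
      rw [← Nat.div_add_mod p q, ← Nat.div_add_mod p' q, e1, e2, h']
  have hq' : (0 : ℝ) < q := by exact_mod_cast hq
  have hML' : (q : ℝ) * L ≤ 2 * x := by exact_mod_cast hML
  refine ((mul_le_mul_of_nonneg_right (GG_geQ q₀ Y hq₀ hY) (Nat.cast_nonneg _)).trans h1).trans ?_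
  rw [le_div_iff₀ hq']
  calc (C.card : ℝ) * (4 * L) * q = 4 * C.card * (q * L) := by ring
    _ ≤ 4 * C.card * (2 * x) := mul_le_mul_of_nonneg_left hML' (by positivity)
    _ = 8 * C.card * x := by ring

theorem long_ap (K : ℕ) : ∃ Y₀ : ℕ, ∀ Y : ℕ, Y₀ ≤ Y → ∃ u e : ℕ, 0 < e ∧ Y < u ∧
    ∀ i < K, (u + i * e).Prime ∧ (u + i * e) % 4 = 3 ∧ u + i * e ≤ Y ^ 2 := by
  obtain ⟨c, hc, Y₁, h⟩ := many_APc (K + 2) (by omega) 4 3 0 (by norm_num) (by norm_num)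
  obtain ⟨N₂, hN⟩ := ProgKAux.log_small (K + 2) (c / (8 * 2 ^ (K + 2))) (by positivity)
  refine ⟨Y₁ + N₂ + 2, fun Y hY => ?_⟩
  by_contra hno
  have hY2 : Y ≤ Y ^ 2 := Nat.le_self_pow (by norm_num) Y
  have hsub : APc 4 3 0 (K + 2) (Y ^ 2) ⊆ range (Y + 1) ×ˢ range (Y ^ 2 + 1) := by
    intro t ht
    obtain ⟨t1, t2, t3⟩ := mem_filter.1 ht
    refine mem_product.2 ⟨mem_range.2 ?_, (mem_product.1 t1).2⟩
    by_contra hu
    refine hno ⟨t.1, t.2, t2, by omega, fun i hi => ?_⟩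
    obtain ⟨a1, a2⟩ := t3 i (by omega)
    exact ⟨a2.1, a2.2.2, a1⟩
  have h1 := (h (Y ^ 2) (by omega)).trans (Nat.cast_le.2 (card_le_card hsub))
  have h2 := hN Y (by omega)
  have hy : (2 : ℝ) ≤ Y := by exact_mod_cast (show 2 ≤ Y by omega)
  have hl : 0 < Real.log Y := Real.log_pos (by linarith)
  rw [card_product, card_range, card_range] at h1
  push_cast at h1
  rw [Real.log_pow, div_le_iff₀ (by positivity), mul_pow] at h1
  push_cast at h1
  rw [div_mul_eq_mul_div, le_div_iff₀ (by positivity)] at h2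
  have h3 : ((Y : ℝ) + 1) * ((Y : ℝ) ^ 2 + 1) ≤ 4 * (Y : ℝ) ^ 3 := by nlinarith
  have h4 : ((Y : ℝ) + 1) * ((Y : ℝ) ^ 2 + 1) * (2 ^ (K + 2) * Real.log Y ^ (K + 2))
      ≤ 4 * (Y : ℝ) ^ 3 * (c * Y / 8) :=
    mul_le_mul h3 (by linarith) (by positivity) (by positivity)
  have h5 : 0 < c * (Y : ℝ) ^ 4 := by positivity
  nlinarith

theorem b14_sq {g x y P Q : ℕ} (hg : Squarefree g) (hx : x.Prime) (hy : y.Prime) (hxy : x ≠ y)
    (gx : ¬ x ∣ g) (gy : ¬ y ∣ g) (hP : P.Prime) (hQ : Q.Prime) (h1 : g * x * y < P)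
    (h2 : P < Q) : Squarefree (g * x * y) ∧ Squarefree (g * x * y * P * Q) := by
  have c1 : Nat.Coprime g x := ((Nat.Prime.coprime_iff_not_dvd hx).2 gx).symm
  have c2 : Nat.Coprime (g * x) y := Nat.Coprime.mul_left
    ((Nat.Prime.coprime_iff_not_dvd hy).2 gy).symm ((Nat.coprime_primes hx hy).2 hxy)
  have s1 : Squarefree (g * x * y) :=
    (Nat.squarefree_mul c2).2 ⟨(Nat.squarefree_mul c1).2 ⟨hg, hx.squarefree⟩, hy.squarefree⟩
  have h0 : 0 < g * x * y := Nat.pos_of_ne_zero s1.ne_zero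
  have c3 : Nat.Coprime (g * x * y) P := RoughAux.cop h0 hP h1
  have c4 : Nat.Coprime (g * x * y * P) Q := Nat.Coprime.mul_left
    (RoughAux.cop h0 hQ (h1.trans h2)) ((Nat.coprime_primes hP hQ).2 h2.ne)
  exact ⟨s1, (Nat.squarefree_mul c4).2
    ⟨(Nat.squarefree_mul c3).2 ⟨s1, hP.squarefree⟩, hQ.squarefree⟩⟩

theorem b14_ks {m : ℕ} (hm : m ≠ 0) : Sg.KS m = R m 1 := by
  have : NeZero m := ⟨hm⟩
  rw [Sg.KlooAux.KS_eq_S, R_eq]

theorem b14_ord {g x y P Q : ℕ} {ε : ℝ} (U : ℕ → Prop) (ux : U x) (uy : U y) (hxy : x ≠ y)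
    (hs : Squarefree (g * x * y * P * Q)) (h : 0 < ε * R (g * x * y * P * Q) 1) :
    ∃ r s : ℕ, U r ∧ U s ∧ r < s ∧ Squarefree (g * r * s * P * Q) ∧
      0 < ε * Sg.KS (g * r * s * P * Q) := by
  rw [← b14_ks hs.ne_zero] at h
  rcases lt_or_gt_of_ne hxy with l | l
  · exact ⟨x, y, ux, uy, l, hs, h⟩
  · have e : g * y * x = g * x * y := by ring
    exact ⟨y, x, uy, ux, l, by rw [e]; exact hs, by rw [e]; exact h⟩

theorem b14_sign {ε E1 E2 E3 E4 : ℝ} (hε : ε ≠ 0) (h : E1 * E2 * E3 * E4 < 0) :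
    0 < ε * E1 ∨ 0 < ε * E2 ∨ 0 < ε * E3 ∨ 0 < ε * E4 := by
  by_contra hc
  push Not at hc
  obtain ⟨h1, h2, h3, h4⟩ := hc
  have a1 : 0 ≤ (ε * E1) * (ε * E2) := mul_nonneg_of_nonpos_of_nonpos h1 h2
  have a2 : 0 ≤ (ε * E3) * (ε * E4) := mul_nonneg_of_nonpos_of_nonpos h3 h4
  have a3 := mul_nonneg a1 a2
  have a4 : 0 < ε ^ 4 := by positivity
  have a5 : ε * E1 * (ε * E2) * (ε * E3 * (ε * E4)) = ε ^ 4 * (E1 * E2 * E3 * E4) := by ring
  rw [a5] at a3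
  exact absurd (mul_neg_of_pos_of_neg a4 h) (not_lt.2 a3)

theorem cyc {g a b c p d : ℕ} (hg : Squarefree g) (ha : a.Prime) (hb : b.Prime) (hc : c.Prime)
    (hab : a ≠ b) (e : a + c = 2 * b) (ga : ¬ a ∣ g) (gb : ¬ b ∣ g) (gc : ¬ c ∣ g)
    (hd : 0 < d) (hL : g * a * b * c ∣ d) (hp : g * a * b * c < p) (p0 : p.Prime)
    (p1 : (p + a * d).Prime) (p2 : (p + b * d).Prime) (p3 : (p + 2 * b * d).Prime)
    (hs : R (g * b * c) (p * p) * R (g * b * a) (p * p) < 0) (ε : ℝ) (hε : ε ≠ 0) :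
    ∃ r s i i' : ℕ, (r = a ∨ r = b ∨ r = c) ∧ (s = a ∨ s = b ∨ s = c) ∧ r < s ∧
      (i = 0 ∨ i = a ∨ i = b) ∧ (i' = a ∨ i' = b ∨ i' = 2 * b) ∧ i < i' ∧
      Squarefree (g * r * s * (p + i * d) * (p + i' * d)) ∧
      0 < ε * Sg.KS (g * r * s * (p + i * d) * (p + i' * d)) := by
  have g0 : 0 < g := Nat.pos_of_ne_zero hg.ne_zero
  have a0 := ha.pos
  have b0 := hb.pos
  have c0 := hc.pos
  have hbc : b ≠ c := by omega
  have hca : c ≠ a := by omega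
  have key : ∀ t D : ℕ, t * D = g * a * b * c → t ≠ 0 ∧ t ∣ d ∧ 0 < D ∧ t < p := by
    intro t D h
    have h0 : 0 < t * D := by rw [h]; positivity
    have ht : 0 < t := Nat.pos_of_mul_pos_right h0
    have hD : 0 < D := Nat.pos_of_mul_pos_left h0
    refine ⟨ht.ne', (Dvd.intro D h).trans hL, hD, lt_of_le_of_lt ?_ hp⟩
    rw [← h]; exact Nat.le_mul_of_pos_right _ hD
  have m1 : g * b * c * a = g * a * b * c := by ring
  have m2 : g * b * a * c = g * a * b * c := by ring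
  have m3 : g * c * a * b = g * a * b * c := by ring
  obtain ⟨k1, k2, k3, k4⟩ := key _ _ m1
  obtain ⟨l1, l2, l3, l4⟩ := key _ _ m2
  obtain ⟨n1, n2, n3, n4⟩ := key _ _ m3
  have p0' : (p + 0 * d).Prime := by simpa using p0
  have bb : b + b = 2 * b := by omega
  have E1 := edge (i := 0) (u := 1) k1 k2 k3 hd k4 p0' (by rw [zero_add]; exact p1) (by simp)
  have E2 := edge (i := a) (u := 1) l1 l2 l3 hd l4 p1 (by rw [e]; exact p3) (by simp)
  have E3 := edge (i := 0) (u := 1) n1 n2 n3 hd n4 p0' (by rw [zero_add]; exact p2) (by simp)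
  have E4 := edge (i := b) (u := 1) n1 n2 n3 hd n4 p2 (by rw [bb]; exact p3) (by simp)
  rw [zero_add, m1, one_mul, one_mul] at E1
  rw [e, m2, one_mul, one_mul] at E2
  rw [zero_add, m3, one_mul, one_mul] at E3
  rw [bb, m3, one_mul, one_mul] at E4
  have ad : 0 < a * d := Nat.mul_pos a0 hd
  have bd : 0 < b * d := Nat.mul_pos b0 hd
  have cd : 0 < c * d := Nat.mul_pos c0 hd
  have e2 : 2 * b * d = a * d + c * d := by rw [← e]; ring
  have e3 : 2 * b * d = b * d + b * d := by ring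
  have S1 := b14_sq hg hb hc hbc gb gc p0' p1 (by omega) (by omega)
  have S2 := b14_sq hg hb ha hab.symm gb ga p1 p3 (by omega) (by omega)
  have S3 := b14_sq hg hc ha hca gc ga p0' p2 (by omega) (by omega)
  have S4 := b14_sq hg hc ha hca gc ga p2 p3 (by omega) (by omega)
  have z0 := R_ne p0' (g * a * b * c * d)
  have z1 := R_ne p1 (g * a * b * c * d)
  have z2 := R_ne p2 (g * a * b * c * d)
  have z3 := R_ne p3 (g * a * b * c * d)
  have cp : Nat.Coprime (g * c * a) p := RoughAux.cop (Nat.pos_of_ne_zero n1) p0 n4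
  have z4 := RoughAux.R_ne_sqf _ S3.1 (p * p) (Nat.Coprime.mul_left cp.symm cp.symm)
  have neg : R (g * b * c * (p + 0 * d) * (p + a * d)) 1 *
      R (g * b * a * (p + a * d) * (p + 2 * b * d)) 1 *
      R (g * c * a * (p + 0 * d) * (p + b * d)) 1 *
      R (g * c * a * (p + b * d) * (p + 2 * b * d)) 1 < 0 := by
    rw [E1, E2, E3, E4]
    have hsq : 0 < (R (g * c * a) (p * p) * R (p + 0 * d) (g * a * b * c * d) *
        R (p + a * d) (g * a * b * c * d) * R (p + b * d) (g * a * b * c * d) *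
        R (p + 2 * b * d) (g * a * b * c * d)) ^ 2 := by positivity
    have := mul_neg_of_neg_of_pos hs hsq
    refine lt_of_eq_of_lt ?_ this
    ring
  rcases b14_sign hε neg with h | h | h | h
  · obtain ⟨r, s, u1, u2, u3, u4, u5⟩ := b14_ord (fun x => x = a ∨ x = b ∨ x = c)
      (Or.inr (Or.inl rfl)) (Or.inr (Or.inr rfl)) hbc S1.2 h
    exact ⟨r, s, 0, a, u1, u2, u3, Or.inl rfl, Or.inl rfl, a0, u4, u5⟩
  · obtain ⟨r, s, u1, u2, u3, u4, u5⟩ := b14_ord (fun x => x = a ∨ x = b ∨ x = c)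
      (Or.inr (Or.inl rfl)) (Or.inl rfl) hab.symm S2.2 h
    exact ⟨r, s, a, 2 * b, u1, u2, u3, Or.inr (Or.inl rfl), Or.inr (Or.inr rfl), by omega, u4, u5⟩
  · obtain ⟨r, s, u1, u2, u3, u4, u5⟩ := b14_ord (fun x => x = a ∨ x = b ∨ x = c)
      (Or.inr (Or.inr rfl)) (Or.inl rfl) hca S3.2 h
    exact ⟨r, s, 0, b, u1, u2, u3, Or.inl rfl, Or.inr (Or.inl rfl), b0, u4, u5⟩
  · obtain ⟨r, s, u1, u2, u3, u4, u5⟩ := b14_ord (fun x => x = a ∨ x = b ∨ x = c)
      (Or.inr (Or.inr rfl)) (Or.inl rfl) hca S4.2 h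
    exact ⟨r, s, b, 2 * b, u1, u2, u3, Or.inr (Or.inr rfl), Or.inr (Or.inr rfl), by omega, u4, u5⟩

end Pool.Agent.FS.AllLarge
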