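import Pool.Agent.FS.AllLarge.Cor
import Pool.Agent.FS.AllLarge.Sgn
import Pool.Agent.FS.LargeCof.D

/-!
Both signs of the Kloosterman sum for moduli `g r s p q` whose prime factors are all large.
-/

open Finset
open scoped Classical

noncomputable section

namespace Pool.Agent.FS.AllLarge

open Pool.Agent.Lib.MP_4b8564_nt Pool.Agent.Lib.MP_4b8564_nt.GT

theorem totient_mul_le (a b : ℕ) (ha : 0 < a) : Nat.totient (a * b) ≤ Nat.totient a * b := by
  rw [Nat.totient_eq_card_coprime, Nat.totient_eq_card_coprime]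
  conv_rhs => rw [← card_range b, ← card_product]
  refine card_le_card_of_injOn (fun n => (n % a, n / a)) (fun n hn => ?_) fun n _ m _ h => ?_
  · obtain ⟨h1, h2⟩ := mem_filter.1 (mem_coe.1 hn)
    refine mem_coe.2 (mem_product.2 ⟨mem_filter.2 ⟨mem_range.2 (Nat.mod_lt _ ha), ?_⟩,
      mem_range.2 (Nat.div_lt_of_lt_mul (mem_range.1 h1))⟩)
    have h3 : Nat.Coprime a n := Nat.Coprime.coprime_mul_right h2
    have : Nat.gcd (n % a) a = 1 := by rw [← Nat.gcd_rec]; exact h3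
    exact Nat.Coprime.symm this
  · have h1 : n % a = m % a := congrArg Prod.fst h
    have h2 : n / a = m / a := congrArg Prod.snd h
    rw [← Nat.div_add_mod n a, ← Nat.div_add_mod m a, h1, h2]

theorem R_mod {m q : ℕ} (h : m ∣ q) (p : ℕ) : R m (p * p) = R m (p % q * (p % q)) := by
  refine R_congr ((ZMod.natCast_eq_natCast_iff' _ _ _).2 ?_)
  have h1 : p ≡ p % q [MOD m] := ((Nat.mod_modEq p q).of_dvd h).symm
  exact h1.mul h1

/-- no triple of labels forces a sign change at `p` -/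
def Bad (s g u e p : ℕ) : Prop := ∀ j ∈ range s,
  0 < R (g * (u + (3 * j + 1) * e) * (u + (3 * j + 2) * e)) (p * p) *
    R (g * (u + (3 * j + 1) * e) * (u + 3 * j * e)) (p * p)

theorem ap_ne {u e i j : ℕ} (he : 0 < e) (h : i ≠ j) : u + i * e ≠ u + j * e := fun h' =>
  h (Nat.eq_of_mul_eq_mul_right he (by omega))

theorem ap_ndvd {u e i : ℕ} (he : 0 < e) (h0 : (u + i * e).Prime) (h1 : (u + (i + 1) * e).Prime) :
    ¬ u + i * e ∣ e := fun h => by
  have h2 : u + i * e ∣ u + (i + 1) * e := by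
    rw [show u + (i + 1) * e = u + i * e + e by ring]
    exact dvd_add dvd_rfl h
  exact ap_ne he (by omega) ((Nat.prime_dvd_prime_iff_eq h0 h1).1 h2)

theorem bad_le {s g u e W Y x : ℕ} {θ : ℝ} (hθ : 0 ≤ θ) (he : 0 < e) (h40 : primorial 40 ∣ W)
    (hW : 0 < W) (hWY : W ≤ Y) (hYu : Y < u) (g0 : 0 < g)
    (hl : ∀ i < 3 * s, (u + i * e).Prime ∧ (u + i * e) % 4 = 3 ∧ u + i * e ≤ Y ^ 2)
    (hg : ∀ l : ℕ, l.Prime → l ∣ g → Y ^ 2 < l)
    (hsh : ∀ t : ℕ, Y < t → t.Prime → t % 4 = 3 → ∀ v : ℕ, Nat.Coprime v t → ∀ τ : ℝ,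
      (((range t).filter fun α => Nat.Coprime α t ∧ 0 < τ * R t (α * α * v)).card : ℝ) ≤ θ * t)
    {M q : ℕ}
    (hM : M = W * e * (g * ∏ j ∈ range s, ((u + (3 * j + 1) * e) * (u + (3 * j + 2) * e))))
    (hq : q = M * ∏ j ∈ range s, (u + 3 * j * e)) (hP : ∀ p ∈ PQ (W * e) Y, ¬ p ∣ q)
    (hx : q * (2 * Y ^ 6) ≤ x) (S : Finset ℕ)
    (hS : ∀ p ∈ S, p.Prime ∧ Y < p ∧ p ≤ x ∧ q < p ∧ Bad s g u e p) :
    Real.log Y * S.card ≤ 8 * θ ^ s * x := by
  have hpos : ∀ i, 0 < u + i * e := fun i => by omega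
  have hB0 : 0 < ∏ j ∈ range s, ((u + (3 * j + 1) * e) * (u + (3 * j + 2) * e)) :=
    prod_pos fun j _ => Nat.mul_pos (hpos _) (hpos _)
  have hA0 : 0 < ∏ j ∈ range s, (u + 3 * j * e) := prod_pos fun j _ => hpos _
  have hq₀ : 0 < W * e := Nat.mul_pos hW he
  have hM0 : 0 < M := hM ▸ Nat.mul_pos hq₀ (Nat.mul_pos g0 hB0)
  have hq0 : 0 < q := hq ▸ Nat.mul_pos hM0 hA0
  have hbc : ∀ j ∈ range s, g * (u + (3 * j + 1) * e) * (u + (3 * j + 2) * e) ∣ M := by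
    intro j hj
    rw [hM, mul_assoc g]
    exact Dvd.dvd.mul_left (Nat.mul_dvd_mul_left g (dvd_prod_of_mem
      (fun j => (u + (3 * j + 1) * e) * (u + (3 * j + 2) * e)) hj)) _
  have hc := bad_count2 (range s) (fun j => u + 3 * j * e) (fun j => g * (u + (3 * j + 1) * e))
    (fun j b => R (g * (u + (3 * j + 1) * e) * (u + (3 * j + 2) * e)) (b * b)) M hM0 θ hθ
    (fun j hj => by
      have hj' := mem_range.1 hj
      obtain ⟨a1, -, a3⟩ := hl (3 * j) (by omega)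
      refine ⟨a1, ?_, (Dvd.intro _ rfl).trans (hbc j hj)⟩
      rw [hM]
      refine Nat.Coprime.symm ((Nat.Prime.coprime_iff_not_dvd a1).2 fun h => ?_)
      rcases (Nat.Prime.dvd_mul a1).1 h with h | h
      · rcases (Nat.Prime.dvd_mul a1).1 h with h | h
        · have := Nat.le_of_dvd hW h
          omega
        · exact ap_ndvd he a1 (hl _ (by omega)).1 h
      · rcases (Nat.Prime.dvd_mul a1).1 h with h | h
        · have := hg _ a1 h
          omega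
        · obtain ⟨i, hi, h⟩ := (Prime.dvd_finsetProd_iff a1.prime _).1 h
          have hi' := mem_range.1 hi
          rcases (Nat.Prime.dvd_mul a1).1 h with h | h
          · exact ap_ne he (by omega)
              ((Nat.prime_dvd_prime_iff_eq a1 (hl _ (by omega)).1).1 h)
          · exact ap_ne he (by omega)
              ((Nat.prime_dvd_prime_iff_eq a1 (hl _ (by omega)).1).1 h))
    (fun i _ j _ h => by
      by_contra hne
      exact ap_ne he (show 3 * i ≠ 3 * j by omega) h)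
    (fun j hj b => R_mod (hbc j hj) b)
    (fun j hj v hv τ => by
      have hj' := mem_range.1 hj
      obtain ⟨a1, a2, -⟩ := hl (3 * j) (by omega)
      exact hsh _ (by omega) a1 a2 v hv τ)
  rw [← hq] at hc
  have h1 := class_leQ (W * e) Y q x (h40.mul_right e) hq₀ (by omega) hq0 hP hx
    ((range q).filter fun b => Nat.Coprime b q ∧ ∀ j ∈ range s,
      0 < R (g * (u + (3 * j + 1) * e) * (u + (3 * j + 2) * e)) (b * b) *
        R (g * (u + (3 * j + 1) * e) * (u + 3 * j * e)) (b * b)) S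
    (fun p hp => by
      obtain ⟨a1, a2, a3, a4, a5⟩ := hS p hp
      refine ⟨a1, a2, a3, mem_filter.2 ⟨mem_range.2 (Nat.mod_lt _ hq0), ?_, fun j hj => ?_⟩⟩
      · have := RoughAux.cop hq0 a1 a4
        show Nat.gcd (p % q) q = 1
        rw [← Nat.gcd_rec]
        exact this
      · have d1 : g * (u + (3 * j + 1) * e) * (u + (3 * j + 2) * e) ∣ q :=
          hq ▸ (hbc j hj).mul_right _
        have d2 : g * (u + (3 * j + 1) * e) * (u + 3 * j * e) ∣ q :=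
          hq ▸ Nat.mul_dvd_mul ((Dvd.intro _ rfl).trans (hbc j hj))
            (dvd_prod_of_mem (fun j => u + 3 * j * e) hj)
        rw [← R_mod d1, ← R_mod d2]
        exact a5 j hj)
  obtain ⟨B, hB⟩ : ∃ B, B = g * ∏ j ∈ range s,
    ((u + (3 * j + 1) * e) * (u + (3 * j + 2) * e)) := ⟨_, rfl⟩
  obtain ⟨A, hA⟩ : ∃ A, A = ∏ j ∈ range s, (u + 3 * j * e) := ⟨_, rfl⟩
  rw [← hB] at hM
  rw [← hA] at hq hA0
  have h2 : (Nat.totient M : ℝ) ≤ Nat.totient (W * e) * B := by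
    rw [hM]
    exact_mod_cast totient_mul_le _ B hq₀
  have h3 : ∏ j ∈ range s, (θ * ((u + 3 * j * e : ℕ) : ℝ)) = θ ^ s * A := by
    rw [prod_mul_distrib, prod_const, card_range, hA, Nat.cast_prod]
  rw [h3] at hc
  have hqr : (q : ℝ) = ((W * e : ℕ) : ℝ) * B * A := by rw [hq, hM]; push_cast; ring
  have hq₀r : (0 : ℝ) < ((W * e : ℕ) : ℝ) := by exact_mod_cast hq₀
  have hφ : (0 : ℝ) < Nat.totient (W * e) := by exact_mod_cast Nat.totient_pos.2 hq₀
  have hqp : (0 : ℝ) < q := by exact_mod_cast hq0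
  have h4 := hc.trans (mul_le_mul_of_nonneg_right h2 (by positivity))
  have h5 := h1.trans (div_le_div_of_nonneg_right (mul_le_mul_of_nonneg_right
    (mul_le_mul_of_nonneg_left h4 (by norm_num)) (Nat.cast_nonneg _)) hqp.le)
  have hBA : (0 : ℝ) < (B : ℝ) * A := by
    have : (0 : ℝ) < ((W * e : ℕ) : ℝ) * (B * A) := by rw [← mul_assoc, ← hqr]; exact hqp
    exact (mul_pos_iff_of_pos_left hq₀r).1 this
  have h6 : 8 * ((Nat.totient (W * e) : ℝ) * B * (θ ^ s * A)) * x / q =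
      (Nat.totient (W * e) : ℝ) / ((W * e : ℕ) : ℝ) * (8 * θ ^ s * x) := by
    rw [hqr, mul_assoc ((W * e : ℕ) : ℝ), div_mul_eq_mul_div, div_eq_div_iff (by positivity) hq₀r.ne']
    ring
  rw [h6, mul_assoc] at h5
  exact le_of_mul_le_mul_left h5 (by positivity)

theorem small_pow {θ : ℝ} (h0 : 0 ≤ θ) (h1 : θ < 1) (c : ℝ) (hc : 0 < c) :
    ∃ s : ℕ, 1 ≤ s ∧ (s : ℝ) * θ ^ s ≤ c := by
  have h := tendsto_self_mul_const_pow_of_lt_one h0 h1
  obtain ⟨s, hs⟩ := Filter.eventually_atTop.1 (h.eventually (gt_mem_nhds hc))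
  exact ⟨s + 1, by omega, (hs _ (by omega)).le⟩

theorem pigeon2 (S : Finset ℕ) (q : ℕ) (hq : 0 < q) (hS : ∀ p ∈ S, p.Prime ∧ q < p) :
    ∃ r : ℕ, ∃ A : Finset ℕ, r < q ∧ (∀ n ∈ A, q * n + r ∈ S) ∧
      S.card ≤ Nat.totient q * A.card := by
  obtain ⟨r, a, A, hA, hc⟩ := LargeCof.pigeon S q 1 hq one_pos hS
  refine ⟨r % q, A.image (· + r / q), Nat.mod_lt _ hq, fun n hn => ?_, ?_⟩
  · obtain ⟨m, hm, rfl⟩ := mem_image.1 hn
    rw [mul_add, add_assoc, Nat.div_add_mod]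
    exact (hA m hm).1
  · rwa [card_image_of_injective _ (add_left_injective _), ← mul_one (Nat.totient q)]

/-- the moduli that are counted -/
def Mods (D Z g x : ℕ) (ε : ℝ) : Finset ℕ := (Icc 1 (g * Z ^ 2 * x ^ 2)).filter fun c =>
  Squarefree c ∧ (∃ r s p q : ℕ, r.Prime ∧ s.Prime ∧ p.Prime ∧ q.Prime ∧ Z ≤ r ^ D ∧ r < s ∧
    s ≤ Z ∧ (x : ℝ) < p * Real.log x ^ 2 ∧ p < q ∧ q ≤ x ∧ c = g * r * s * p * q) ∧
    0 < ε * Sg.KS c

theorem two_primes {p q p' q' : ℕ} (hp : p.Prime) (hp' : p'.Prime) (hq' : q'.Prime)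
    (h : p < q) (h' : p' < q') (e : p * q = p' * q') : p = p' ∧ q = q' := by
  have a : p ∣ p' * q' := e ▸ Dvd.intro _ rfl
  rcases (Nat.Prime.dvd_mul hp).1 a with a | a
  · obtain rfl := (Nat.prime_dvd_prime_iff_eq hp hp').1 a
    exact ⟨rfl, Nat.eq_of_mul_eq_mul_left hp.pos e⟩
  · obtain rfl := (Nat.prime_dvd_prime_iff_eq hp hq').1 a
    rw [mul_comm p'] at e
    have := Nat.eq_of_mul_eq_mul_left hp.pos e
    omega

theorem main (E : ℕ) : ∃ D Z₀ : ℕ, ∀ Z g x : ℕ, Z₀ ≤ Z → Squarefree g →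
    (∀ l : ℕ, l.Prime → l ∣ g → Z < l) → g * Z ≤ x → x ≤ Z ^ E → ∀ ε : ℝ, ε ≠ 0 →
    x ^ 2 ≤ (g * Z) ^ 2 * (Mods D Z g x ε).card := by
  obtain ⟨D, hD⟩ : ∃ D : ℝ, D = (E : ℝ) + 1 := ⟨_, rfl⟩
  have hE0 : (0 : ℝ) ≤ E := Nat.cast_nonneg _
  have hD1 : 1 ≤ D := by linarith
  obtain ⟨θ, hθ0, hθ1, t₀, hsh⟩ := share
  obtain ⟨s, hs1, hs⟩ := small_pow hθ0 hθ1 (1 / (128 * 7187 * D)) (by positivity)
  obtain ⟨F, hF⟩ : ∃ F, F = 6 * s + 7180 := ⟨_, rfl⟩
  obtain ⟨w, Y₀, hU⟩ := ucorC (1 / (8 * D * (F + 1))) (by positivity)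
  obtain ⟨Y₁, hap⟩ := long_ap (3 * s)
  obtain ⟨W, hW⟩ : ∃ W, W = primorial (w + 40) := ⟨_, rfl⟩
  have hW0 : 0 < W := hW ▸ primorial_pos _
  obtain ⟨B, hB⟩ : ∃ B, B = 256 + Y₀ + Y₁ + t₀ + W + ((E + 1) * (F + 1)) ^ 2 := ⟨_, rfl⟩
  refine ⟨F + 1, (2 ^ F + B) ^ F, fun Z g x hZ hg hgZ hx1 hx2 ε hε => ?_⟩
  obtain ⟨Y, hY, hY8, hY9⟩ := MajorKAux.exists_root F B Z (by omega) hZ
  have hYB : B ≤ Y := le_trans (Nat.le_add_left _ _) hY
  clear hY hZ
  have b1 : 256 ≤ Y := by omega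
  have b2 : Y₀ ≤ Y := by omega
  have b3 : Y₁ ≤ Y := by omega
  have b4 : t₀ ≤ Y := by omega
  have b5 : W ≤ Y := by omega
  have b6 : ((E + 1) * (F + 1)) ^ 2 ≤ Y := by omega
  clear hB hYB
  obtain ⟨u, e, he, hYu, hl⟩ := hap Y b3
  have g0 : 0 < g := Nat.pos_of_ne_zero hg.ne_zero
  have hY1 : 1 ≤ Y := by omega
  have hpw : ∀ a b : ℕ, a ≤ b → Y ^ a ≤ Y ^ b := fun a b h => Nat.pow_le_pow_right hY1 h
  have hY2Z : Y ^ 2 ≤ Z := (hpw _ _ (by omega)).trans hY8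
  have hYY : Y ≤ Y ^ 2 := Nat.le_self_pow (by norm_num) Y
  have hZx : Z ≤ x := (Nat.le_mul_of_pos_left Z g0).trans hx1
  have hYr : (256 : ℝ) ≤ Y := by exact_mod_cast b1
  have hgx : g * Y ^ F ≤ x := (Nat.mul_le_mul_left g hY8).trans hx1
  have hx0 : 0 < x := by omega
  have hxr : (0 : ℝ) < x := by exact_mod_cast hx0
  have hlY : 2 ≤ Real.log Y := by
    have a : Real.log ((2 : ℝ) ^ 8) ≤ Real.log Y := Real.log_le_log (by norm_num) (by linarith)
    rw [Real.log_pow] at a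
    have := Real.log_two_gt_d9
    push_cast at a
    linarith
  have hL16 : 16 ≤ Real.log x := by
    have a : ((Y : ℝ)) ^ 8 ≤ x := by exact_mod_cast ((hpw 8 F (by omega)).trans hY8).trans hZx
    have b := Real.log_le_log (by positivity) a
    rw [Real.log_pow] at b
    push_cast at b
    linarith
  have hL9 : Real.log x ≤ D * (F + 1) * Real.log Y := by
    have a : (x : ℝ) ≤ ((Y : ℝ) ^ (F + 1)) ^ E := by
      exact_mod_cast hx2.trans (Nat.pow_le_pow_left hY9 E)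
    have b := Real.log_le_log hxr a
    rw [Real.log_pow, Real.log_pow, Nat.cast_succ] at b
    have c : (0 : ℝ) ≤ (F + 1) * Real.log Y := by positivity
    rw [mul_assoc, hD]
    nlinarith
  obtain ⟨M, hM⟩ : ∃ M, M = W * e *
    (g * ∏ j ∈ range s, ((u + (3 * j + 1) * e) * (u + (3 * j + 2) * e))) := ⟨_, rfl⟩
  obtain ⟨q, hq⟩ : ∃ q, q = M * ∏ j ∈ range s, (u + 3 * j * e) := ⟨_, rfl⟩
  have hpos : ∀ i, 0 < u + i * e := fun i => by omega
  have hq₀ : 0 < W * e := Nat.mul_pos hW0 he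
  have hq0 : 0 < q := by
    rw [hq, hM]
    exact Nat.mul_pos (Nat.mul_pos hq₀ (Nat.mul_pos g0
      (prod_pos fun j _ => Nat.mul_pos (hpos _) (hpos _)))) (prod_pos fun j _ => hpos _)
  have heY : e ≤ Y ^ 2 := by
    have := (hl 1 (by omega)).2.2
    omega
  have hqY : q ≤ g * Y ^ (6 * s + 3) := by
    have a1 : ∏ j ∈ range s, ((u + (3 * j + 1) * e) * (u + (3 * j + 2) * e)) ≤
        (Y ^ 2 * Y ^ 2) ^ s := by
      have := prod_le_pow_card (range s)
        (fun j => (u + (3 * j + 1) * e) * (u + (3 * j + 2) * e)) (Y ^ 2 * Y ^ 2) fun j hj =>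
          Nat.mul_le_mul (hl _ (by have := mem_range.1 hj; omega)).2.2
            (hl _ (by have := mem_range.1 hj; omega)).2.2
      rwa [card_range] at this
    have a2 : ∏ j ∈ range s, (u + 3 * j * e) ≤ (Y ^ 2) ^ s := by
      have := prod_le_pow_card (range s) (fun j => u + 3 * j * e) (Y ^ 2) fun j hj =>
        (hl _ (by have := mem_range.1 hj; omega)).2.2
      rwa [card_range] at this
    calc q ≤ Y * Y ^ 2 * (g * (Y ^ 2 * Y ^ 2) ^ s) * (Y ^ 2) ^ s := by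
          rw [hq, hM]
          gcongr
      _ = _ := by ring
  have big0 : ∀ p : ℕ, (x : ℝ) < p * Real.log x ^ 2 → x < p * Y ^ 3 := by
    intro p hp
    have a1 : Real.log Y ≤ Y := (Real.log_le_sub_one_of_pos (by linarith)).trans (by linarith)
    have a2 : Real.log x ≤ D * (F + 1) * Y := hL9.trans (by gcongr)
    have a3 : (D * (F + 1)) ^ 2 ≤ Y := by
      rw [hD]
      exact_mod_cast b6
    have a4 : Real.log x ^ 2 ≤ (Y : ℝ) ^ 3 := by
      calc Real.log x ^ 2 ≤ (D * (F + 1) * Y) ^ 2 := pow_le_pow_left₀ (by linarith) a2 2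
        _ = (D * (F + 1)) ^ 2 * (Y : ℝ) ^ 2 := by ring
        _ ≤ Y * (Y : ℝ) ^ 2 := by gcongr
        _ = _ := by ring
    have a5 : (x : ℝ) < p * (Y : ℝ) ^ 3 :=
      hp.trans_le (mul_le_mul_of_nonneg_left a4 (Nat.cast_nonneg _))
    exact_mod_cast a5
  have big : ∀ p : ℕ, (x : ℝ) < p * Real.log x ^ 2 → q * Y ^ 7174 < p := by
    intro p hp
    have a6 := big0 p hp
    have a7 : q * Y ^ 7174 * Y ^ 3 ≤ g * Y ^ F := by
      calc q * Y ^ 7174 * Y ^ 3 ≤ g * Y ^ (6 * s + 3) * Y ^ 7174 * Y ^ 3 := by gcongr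
        _ = g * Y ^ F := by
          rw [hF, mul_assoc, mul_assoc, ← pow_add, ← pow_add]
    exact lt_of_mul_lt_mul_right (a7.trans_lt (hgx.trans_lt a6)) (Nat.zero_le _)
  obtain ⟨H, hH⟩ : ∃ H, H = x / (q * Y ^ 6) := ⟨_, rfl⟩
  have hqY6 : 0 < q * Y ^ 6 := by positivity
  have hH0 : Y ^ 7170 ≤ H := by
    rw [hH, Nat.le_div_iff_mul_le hqY6]
    refine le_trans ?_ hgx
    calc Y ^ 7170 * (q * Y ^ 6) ≤ Y ^ 7170 * (g * Y ^ (6 * s + 3) * Y ^ 6) := by gcongr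
      _ = g * Y ^ (7170 + (6 * s + 3 + 6)) := by
          rw [mul_assoc g, ← pow_add, mul_left_comm, ← pow_add]
      _ ≤ _ := Nat.mul_le_mul_left g (hpw _ _ (by omega))
  have hH1 : 1 ≤ H := (Nat.one_le_pow _ _ hY1).trans hH0
  have hH2 : q * Y ^ 6 * H ≤ x := hH ▸ Nat.mul_div_le x _
  have hH3 : x < q * Y ^ 6 * (H + 1) := hH ▸ Nat.lt_mul_div_succ x hqY6
  have hbig1 : Y ≤ Y ^ 7174 := Nat.le_self_pow (by norm_num) Y
  have hbig2 : ∀ p : ℕ, (x : ℝ) < p * Real.log x ^ 2 → q < p ∧ Y < p := fun p hp =>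
    ⟨(Nat.le_mul_of_pos_right q (by omega)).trans_lt (big p hp),
      (hbig1.trans (Nat.le_mul_of_pos_left _ hq0)).trans_lt (big p hp)⟩
  have hlab : ∀ p ∈ PQ (W * e) Y, ∀ i < 3 * s, ¬ p ∣ u + i * e := by
    intro p hp i hi h
    obtain ⟨a1, a2, -⟩ := mem_filter.1 hp
    have a3 := (mem_Ioc.1 a1).2
    have := (Nat.prime_dvd_prime_iff_eq a2 (hl i hi).1).1 h
    omega
  have hP : ∀ p ∈ PQ (W * e) Y, ¬ p ∣ q := by
    intro p hp h
    obtain ⟨a1, a2, a4⟩ := mem_filter.1 hp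
    have a3 := (mem_Ioc.1 a1).2
    rw [hq, hM] at h
    rcases (Nat.Prime.dvd_mul a2).1 h with h | h
    · rcases (Nat.Prime.dvd_mul a2).1 h with h | h
      · exact a4 h
      · rcases (Nat.Prime.dvd_mul a2).1 h with h | h
        · have := hgZ p a2 h
          omega
        · obtain ⟨i, hi, h⟩ := (Prime.dvd_finsetProd_iff a2.prime _).1 h
          have hi' := mem_range.1 hi
          rcases (Nat.Prime.dvd_mul a2).1 h with h | h
          · exact hlab p hp _ (by omega) h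
          · exact hlab p hp _ (by omega) h
    · obtain ⟨i, hi, h⟩ := (Prime.dvd_finsetProd_iff a2.prime _).1 h
      have hi' := mem_range.1 hi
      exact hlab p hp _ (by omega) h
  have hqx : q * (2 * Y ^ 6) ≤ x := by
    refine le_trans ?_ hgx
    calc q * (2 * Y ^ 6) ≤ g * Y ^ (6 * s + 3) * (Y * Y ^ 6) := by gcongr; omega
      _ = g * Y ^ (6 * s + 10) := by ring
      _ ≤ _ := Nat.mul_le_mul_left g (hpw _ _ (by omega))
  have bad : Real.log x * (((range (x + 1)).filter fun p : ℕ => p.Prime ∧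
      (x : ℝ) < p * Real.log x ^ 2 ∧ Bad s g u e p).card : ℝ) ≤ x / 16 := by
    have a2 := bad_le hθ0 he (hW ▸ primorial_dvd_primorial (by omega)) hW0 b5 hYu g0 hl
      (fun l h1 h2 => hY2Z.trans_lt (hgZ l h1 h2)) (fun t ht => hsh t (by omega)) hM hq hP hqx
      ((range (x + 1)).filter fun p : ℕ => p.Prime ∧
        (x : ℝ) < p * Real.log x ^ 2 ∧ Bad s g u e p) (fun p hp => by
        obtain ⟨c1, c2, c3, c4⟩ := mem_filter.1 hp
        exact ⟨c2, (hbig2 p c3).2, Nat.lt_succ_iff.1 (mem_range.1 c1), (hbig2 p c3).1, c4⟩)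
    have a3 : (F : ℝ) + 1 ≤ 7187 * s := by
      have : F + 1 ≤ 7187 * s := by omega
      exact_mod_cast this
    have a4 : (0 : ℝ) ≤ θ ^ s := by positivity
    calc _ ≤ D * (F + 1) * Real.log Y * _ := mul_le_mul_of_nonneg_right hL9 (Nat.cast_nonneg _)
      _ = D * (F + 1) * (Real.log Y * _) := by ring
      _ ≤ D * (7187 * s) * (8 * θ ^ s * x) :=
          mul_le_mul (by gcongr) a2 (by positivity) (by positivity)
      _ = 8 * 7187 * D * (s * θ ^ s) * x := by ring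
      _ ≤ 8 * 7187 * D * (1 / (128 * 7187 * D)) * x := by gcongr
      _ = x / 16 := by field_simp; ring
  have hS := LargeCof.good_count x hL16 (Bad s g u e) (Bad s g u e) bad bad
  obtain ⟨r, A, hr, hA, hc⟩ := pigeon2 ((range (x + 1)).filter fun p : ℕ => p.Prime ∧
      (x : ℝ) < p * Real.log x ^ 2 ∧ ¬ Bad s g u e p ∧ ¬ Bad s g u e p) q hq0
    fun p hp => ⟨(mem_filter.1 hp).2.1, (hbig2 p (mem_filter.1 hp).2.2.1).1⟩
  have hAne : A.Nonempty := by
    rw [← card_pos]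
    by_contra h0
    have h1 : A.card = 0 := by omega
    rw [h1, mul_zero, Nat.le_zero] at hc
    rw [hc] at hS
    simp only [Nat.cast_zero, mul_zero] at hS
    linarith
  obtain ⟨n₁, hn₁⟩ := hAne
  obtain ⟨-, pp, hp1, hnb, -⟩ := mem_filter.1 (hA n₁ hn₁)
  unfold Bad at hnb
  push Not at hnb
  obtain ⟨j, hj, hneg⟩ := hnb
  have hj' := mem_range.1 hj
  obtain ⟨a, ha⟩ : ∃ a, a = u + 3 * j * e := ⟨_, rfl⟩
  have ea1 : u + (3 * j + 1) * e = a + e := by rw [ha]; ring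
  have ea2 : u + (3 * j + 2) * e = a + 2 * e := by rw [ha]; ring
  have la := hl (3 * j) (by omega)
  have lb := hl (3 * j + 1) (by omega)
  have lc := hl (3 * j + 2) (by omega)
  have hdv : g * (a + e) * (a + 2 * e) * a ∣ q := by
    rw [← ea1, ← ea2, hq, hM]
    conv_lhs => rw [ha]
    refine Nat.mul_dvd_mul (Dvd.dvd.mul_left ?_ _) (dvd_prod_of_mem (fun j => u + 3 * j * e) hj)
    rw [mul_assoc g]
    exact Nat.mul_dvd_mul_left g (dvd_prod_of_mem
      (fun j => (u + (3 * j + 1) * e) * (u + (3 * j + 2) * e)) hj)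
  have na := fun p hp => hlab p hp (3 * j) (by omega)
  have nb := fun p hp => hlab p hp (3 * j + 1) (by omega)
  have nc := fun p hp => hlab p hp (3 * j + 2) (by omega)
  rw [ea1, ea2, ← ha] at hneg
  rw [← ha] at la na
  rw [ea1] at lb nb
  rw [ea2] at lc nc
  have hYa : Y < a := by omega
  have ng : ∀ l : ℕ, l.Prime → l ≤ Y ^ 2 → ¬ l ∣ g := fun l h1 h2 h3 => by
    have := hgZ l h1 h3
    omega
  have d1 : g * (a + e) * (a + 2 * e) ∣ q := (Dvd.intro _ rfl).trans hdv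
  have d2 : g * (a + e) * a ∣ q := Dvd.dvd.trans ⟨a + 2 * e, by ring⟩ hdv
  have sq : ∀ b c : ℕ, b.Prime → c.Prime → b ≤ Y ^ 2 → c ≤ Y ^ 2 → b ≠ c →
      Squarefree (g * b * c) := fun b c h1 h2 h3 h4 h5 => by
    have c1 : Nat.Coprime g b := ((Nat.Prime.coprime_iff_not_dvd h1).2 (ng b h1 h3)).symm
    have c2 : Nat.Coprime g c := ((Nat.Prime.coprime_iff_not_dvd h2).2 (ng c h2 h4)).symm
    exact (Nat.squarefree_mul (Nat.Coprime.mul_left c2 ((Nat.coprime_primes h1 h2).2 h5))).2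
      ⟨(Nat.squarefree_mul c1).2 ⟨hg, h1.prime.squarefree⟩, h2.prime.squarefree⟩
  have nz : ∀ m : ℕ, Squarefree m → m ∣ q → R m ((q * n₁ + r) * (q * n₁ + r)) ≠ 0 := by
    intro m h1 h2
    have c := (RoughAux.cop hq0 pp (hbig2 _ hp1).1).coprime_dvd_left h2
    exact RoughAux.R_ne_sqf _ h1 _ (Nat.Coprime.mul_left c.symm c.symm)
  have hneg' := lt_of_le_of_ne hneg (mul_ne_zero
    (nz _ (sq _ _ lb.1 lc.1 lb.2.2 lc.2.2 (by omega)) d1)
    (nz _ (sq _ _ lb.1 la.1 lb.2.2 la.2.2 (by omega)) d2))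
  have hall : ∀ n : ℕ, R (g * (a + e) * (a + 2 * e)) ((q * n + r) * (q * n + r)) *
      R (g * (a + e) * a) ((q * n + r) * (q * n + r)) < 0 := fun n => by
    rw [R_mod d1, R_mod d2, Nat.mul_add_mod] at hneg' ⊢
    exact hneg'
  obtain ⟨N, hNp, hN1, hN2⟩ := Nat.exists_prime_lt_and_le_two_mul H (by omega)
  have hle : ∀ n ∈ A, q * n + r ≤ x := fun n hn =>
    Nat.lt_succ_iff.1 (mem_range.1 (mem_filter.1 (hA n hn)).1)
  have hcount := hU Y N (x / q + 1) (W * e) q r a e A hNp b2 (hH0.trans hN1.le) hq₀ (by omega) he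
    (fun p hp => by
      obtain ⟨-, a2, a4⟩ := mem_filter.1 hp
      refine ⟨?_, hP p hp, na p hp, nb p hp, nc p hp, fun h => a4 (h.mul_left W)⟩
      by_contra h
      exact a4 (Dvd.dvd.mul_right (hW ▸ (Nat.Prime.dvd_primorial_iff a2).2 (by omega)) e))
    (fun n hn => by
      obtain ⟨-, c2, c3, -⟩ := mem_filter.1 (hA n hn)
      have c4 := big0 _ c3
      have c5 : H * Y ^ 3 ≤ n := by
        by_contra h
        have e1 : q * (n + 1) ≤ q * (H * Y ^ 3) := Nat.mul_le_mul_left q (by omega)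
        have e2 : (q * n + r) * Y ^ 3 ≤ q * (H * Y ^ 3) * Y ^ 3 :=
          Nat.mul_le_mul_right _ (by rw [mul_add] at e1; omega)
        have e3 : q * (H * Y ^ 3) * Y ^ 3 = q * Y ^ 6 * H := by ring
        omega
      have c6 : n ≤ x / q := by
        rw [Nat.le_div_iff_mul_le hq0, mul_comm]
        have := hle n hn
        omega
      refine ⟨le_trans ?_ c5, by omega, c2, (hbig2 _ c3).2⟩
      calc 4 * (a + e) * N ≤ 4 * Y ^ 2 * (2 * H) :=
            Nat.mul_le_mul (Nat.mul_le_mul_left 4 lb.2.2) hN2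
        _ = H * (8 * Y ^ 2) := by ring
        _ ≤ H * (Y * Y ^ 2) := by gcongr; omega
        _ = H * Y ^ 3 := by ring)
    (Nat.succ_pos _)
    (by
      obtain ⟨G, hG⟩ : ∃ G, q = W * e * G := ⟨_, by rw [hq, hM, mul_assoc (W * e)]⟩
      have c1 : Nat.totient q ≤ Nat.totient (W * e) * G := hG ▸ totient_mul_le _ G hq₀
      have c2 : q * (x / q + 1) ≤ 2 * x := by
        have e1 := Nat.mul_div_le x q
        have e2 : q ≤ x := (Nat.le_mul_of_pos_right q (by positivity)).trans hqx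
        rw [mul_add]
        omega
      have c3 := hc.trans (Nat.mul_le_mul_right _ c1)
      have c4 := (Nat.cast_le (α := ℝ)).2 c3
      have c5 := (Nat.cast_le (α := ℝ)).2 c2
      rw [Nat.cast_mul, Nat.cast_mul] at c4
      rw [Nat.cast_mul, Nat.cast_mul, Nat.cast_ofNat] at c5
      have c7 := hS.trans (mul_le_mul (mul_le_mul_of_nonneg_left hL9 (by norm_num)) c4
        (Nat.cast_nonneg _) (by positivity))
      have hWr : (0 : ℝ) < ((W * e : ℕ) : ℝ) := by exact_mod_cast hq₀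
      have hGr : (0 : ℝ) < G := by
        have : 0 < G := Nat.pos_of_ne_zero fun h => by rw [h, mul_zero] at hG; omega
        exact_mod_cast this
      have hqr : (q : ℝ) = ((W * e : ℕ) : ℝ) * G := by rw [hG, Nat.cast_mul]
      rw [hqr] at c5
      rw [div_mul_eq_mul_div, one_mul, div_le_iff₀ (by positivity), div_mul_eq_mul_div,
        div_mul_eq_mul_div, div_mul_eq_mul_div, le_div_iff₀ hWr]
      refine le_of_mul_le_mul_left ?_ hGr
      calc (G : ℝ) * (((x / q + 1 : ℕ) : ℝ) * ((W * e : ℕ) : ℝ)) =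
            ((W * e : ℕ) : ℝ) * G * ((x / q + 1 : ℕ) : ℝ) := by ring
        _ ≤ 2 * x := c5
        _ ≤ 2 * (4 * (D * (F + 1) * Real.log Y) * (Nat.totient (W * e) * G * A.card)) :=
          mul_le_mul_of_nonneg_left c7 (by norm_num)
        _ = _ := by ring)
  obtain ⟨V, hV⟩ : ∃ V : Finset ℕ, V = {0, a, a + e, a + 2 * e, 2 * (a + e)} := ⟨_, rfl⟩
  have hVc : V.card ≤ 5 := hV ▸ card_le_five
  obtain ⟨Tr, hTr⟩ : ∃ Tr, Tr = (A ×ˢ range N ×ˢ ({a, a + 2 * e} : Finset ℕ)).filter fun z =>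
      0 < z.2.1 ∧ z.1 + z.2.2 * z.2.1 ∈ A ∧ z.1 + (a + e) * z.2.1 ∈ A ∧
        z.1 + 2 * (a + e) * z.2.1 ∈ A := ⟨_, rfl⟩
  rw [← hTr] at hcount
  have key : ∀ z ∈ Tr, ∃ t : ℕ × ℕ × ℕ × ℕ, t ∈ V ×ˢ V ×ˢ V ×ˢ V ∧ t.2.2.1 < t.2.2.2 ∧ 0 < t.1 ∧
      0 < t.2.1 ∧ (q * z.1 + r + t.2.2.1 * (q * z.2.1)).Prime ∧
      (q * z.1 + r + t.2.2.2 * (q * z.2.1)).Prime ∧
      q * z.1 + r + t.2.2.1 * (q * z.2.1) < q * z.1 + r + t.2.2.2 * (q * z.2.1) ∧
      g * t.1 * t.2.1 * (q * z.1 + r + t.2.2.1 * (q * z.2.1)) *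
        (q * z.1 + r + t.2.2.2 * (q * z.2.1)) ∈ Mods (F + 1) Z g x ε := by
    rintro ⟨n, d, a'⟩ hz
    rw [hTr] at hz
    obtain ⟨hz1, hd, m1, m2, m3⟩ := mem_filter.1 hz
    simp only [mem_product, mem_insert, mem_singleton] at hz1
    obtain ⟨m0, -, ha'⟩ := hz1
    dsimp only at hd m1 m2 m3 ⊢
    have e0 : ∀ i, q * n + r + i * (q * d) = q * (n + i * d) + r := fun i => by ring
    have mem : ∀ i, (i = 0 ∨ i = a' ∨ i = a + e ∨ i = 2 * (a + e)) →
        (q * n + r + i * (q * d)).Prime ∧ q * n + r + i * (q * d) ≤ x ∧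
          (x : ℝ) < ((q * n + r + i * (q * d) : ℕ) : ℝ) * Real.log x ^ 2 := by
      intro i hi
      have : n + i * d ∈ A := by
        rcases hi with rfl | rfl | rfl | rfl
        · simpa using m0
        · exact m1
        · exact m2
        · exact m3
      rw [e0]
      exact ⟨(mem_filter.1 (hA _ this)).2.1, hle _ this, (mem_filter.1 (hA _ this)).2.2.1⟩
    obtain ⟨c', hc', k1, k2, k3, k4, k5, k6, k7⟩ : ∃ c', (c' = a ∨ c' = a + 2 * e) ∧ a'.Prime ∧
        c'.Prime ∧ a' ≠ a + e ∧ a' + c' = 2 * (a + e) ∧ a' ≤ Y ^ 2 ∧ g * a' * (a + e) * c' ∣ q ∧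
        R (g * (a + e) * c') ((q * n + r) * (q * n + r)) *
          R (g * (a + e) * a') ((q * n + r) * (q * n + r)) < 0 := by
      rcases ha' with rfl | rfl
      · exact ⟨_, Or.inr rfl, la.1, lc.1, by omega, by ring, la.2.2,
          Dvd.dvd.trans ⟨1, by ring⟩ hdv, hall n⟩
      · exact ⟨_, Or.inl rfl, lc.1, la.1, by omega, by ring, lc.2.2,
          Dvd.dvd.trans ⟨1, by ring⟩ hdv, by rw [mul_comm]; exact hall n⟩
    have k8 : c' ≤ Y ^ 2 := by rcases hc' with rfl | rfl; exacts [la.2.2, lc.2.2]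
    have m00 := mem 0 (Or.inl rfl)
    rw [zero_mul, add_zero] at m00
    obtain ⟨v, v', i, i', f1, f2, f3, f4, f5, f6, f7, f8⟩ := cyc (p := q * n + r) (d := q * d) hg k1
      lb.1 k2 k3 k4 (ng _ k1 k5) (ng _ lb.1 lb.2.2) (ng _ k2 k8) (Nat.mul_pos hq0 hd)
      (k6.mul_right d) ((Nat.le_of_dvd hq0 k6).trans_lt (hbig2 _ m00.2.2).1) m00.1
      (mem _ (Or.inr (Or.inl rfl))).1 (mem _ (Or.inr (Or.inr (Or.inl rfl)))).1
      (mem _ (Or.inr (Or.inr (Or.inr rfl)))).1 k7 ε hε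
    have lab : ∀ t, (t = a' ∨ t = a + e ∨ t = c') → t.Prime ∧ Y < t ∧ t ≤ Y ^ 2 := by
      rintro t (rfl | rfl | rfl)
      · exact ⟨k1, by omega, k5⟩
      · exact ⟨lb.1, by omega, lb.2.2⟩
      · exact ⟨k2, by omega, k8⟩
    have q1 := mem i (by clear * - f4; tauto)
    have q2 := mem i' (by clear * - f5; tauto)
    have hlt : q * n + r + i * (q * d) < q * n + r + i' * (q * d) := by
      have := Nat.mul_lt_mul_of_pos_right f6 (Nat.mul_pos hq0 hd)
      omega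
    have z1 := (lab v f1).2.2.trans hY2Z
    have z2 := (lab v' f2).2.2.trans hY2Z
    refine ⟨(v, v', i, i'), ?_, f6, (lab v f1).1.pos, (lab v' f2).1.pos, q1.1, q2.1, hlt,
      mem_filter.2 ⟨mem_Icc.2 ⟨Nat.pos_of_ne_zero f7.ne_zero, ?_⟩, f7,
        ⟨v, v', _, _, (lab v f1).1, (lab v' f2).1, q1.1, q2.1,
          hY9.trans (Nat.pow_le_pow_left (lab v f1).2.1.le _), f3, z2, q1.2.2, hlt, q2.2.1, rfl⟩,
        f8⟩⟩
    · have v0 : ∀ t, (t = 0 ∨ t = a' ∨ t = a + e ∨ t = c' ∨ t = 2 * (a + e)) → t ∈ V := by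
        intro t ht
        simp only [hV, mem_insert, mem_singleton]
        clear * - ht ha' hc'
        omega
      refine mem_product.2 ⟨v0 _ ?_, mem_product.2 ⟨v0 _ ?_, mem_product.2 ⟨v0 _ ?_, v0 _ ?_⟩⟩⟩
      · clear * - f1
        tauto
      · clear * - f2
        tauto
      · clear * - f4
        tauto
      · clear * - f5
        tauto
    · calc _ ≤ g * Z * Z * x * x := Nat.mul_le_mul (Nat.mul_le_mul
            (Nat.mul_le_mul (Nat.mul_le_mul_left g z1) z2) q1.2.1) q2.2.1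
        _ = _ := by ring
  choose! t ht using key
  have hcard : Tr.card ≤ (Mods (F + 1) Z g x ε ×ˢ (V ×ˢ V ×ˢ V ×ˢ V) ×ˢ V).card := by
    refine card_le_card_of_injOn (fun z => (g * (t z).1 * (t z).2.1 *
      (q * z.1 + r + (t z).2.2.1 * (q * z.2.1)) * (q * z.1 + r + (t z).2.2.2 * (q * z.2.1)),
      t z, z.2.2)) (fun z hz => ?_) fun z hz z' hz' h => ?_
    · have hz1 := mem_coe.1 hz
      refine mem_coe.2 (mem_product.2 ⟨(ht z hz1).2.2.2.2.2.2.2, mem_product.2 ⟨(ht z hz1).1, ?_⟩⟩)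
      rw [hTr] at hz1
      have := (mem_product.1 (mem_product.1 (mem_filter.1 hz1).1).2).2
      simp only [hV, mem_insert, mem_singleton] at this ⊢
      clear * - this
      tauto
    · obtain ⟨-, a1, a2, a3, a4, -, a6, -⟩ := ht z (mem_coe.1 hz)
      obtain ⟨-, -, -, -, c4, c5, c6, -⟩ := ht z' (mem_coe.1 hz')
      simp only [Prod.mk.injEq] at h
      obtain ⟨h1, h2, h3⟩ := h
      rw [← h2] at h1 c4 c5 c6
      rw [mul_assoc _ _ (q * z.1 + r + (t z).2.2.2 * (q * z.2.1)),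
        mul_assoc _ _ (q * z'.1 + r + (t z).2.2.2 * (q * z'.2.1))] at h1
      obtain ⟨e1, e2⟩ := two_primes a4 c4 c5 a6 c6
        (Nat.eq_of_mul_eq_mul_left (Nat.mul_pos (Nat.mul_pos g0 a2) a3) h1)
      obtain ⟨k, hk⟩ := Nat.exists_eq_add_of_lt a1
      have e3 : (k + 1) * (q * z.2.1) = (k + 1) * (q * z'.2.1) := by
        have x1 : ∀ y : ℕ, (t z).2.2.2 * y = (t z).2.2.1 * y + (k + 1) * y := fun y => by
          rw [hk]
          ring
        rw [x1, x1] at e2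
        clear * - e1 e2
        omega
      have e4 := Nat.eq_of_mul_eq_mul_left hq0 (Nat.eq_of_mul_eq_mul_left (Nat.succ_pos k) e3)
      rw [e4] at e1
      have e5 : q * z.1 = q * z'.1 := by
        clear * - e1
        omega
      exact Prod.ext (Nat.eq_of_mul_eq_mul_left hq0 e5) (Prod.ext e4 h3)
  simp only [card_product] at hcard
  have hc2 : Tr.card ≤ (Mods (F + 1) Z g x ε).card * Y ^ 2 := by
    refine hcard.trans (Nat.mul_le_mul_left _ ?_)
    calc _ ≤ 5 * (5 * (5 * 5)) * 5 := by gcongr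
      _ ≤ 256 ^ 2 := by norm_num
      _ ≤ Y ^ 2 := Nat.pow_le_pow_left b1 2
  have hx3 : x ≤ g * Y ^ (6 * s + 9) * N := by
    calc x ≤ q * Y ^ 6 * (H + 1) := hH3.le
      _ ≤ g * Y ^ (6 * s + 3) * Y ^ 6 * N := by gcongr; omega
      _ = _ := by ring
  calc x ^ 2 ≤ (g * Y ^ (6 * s + 9) * N) ^ 2 := Nat.pow_le_pow_left hx3 2
    _ = (g * Y ^ (6 * s + 9)) ^ 2 * N ^ 2 := by rw [mul_pow]
    _ ≤ (g * Y ^ (6 * s + 9)) ^ 2 * (Y ^ 5 * ((Mods (F + 1) Z g x ε).card * Y ^ 2)) :=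
        Nat.mul_le_mul_left _ (hcount.trans (Nat.mul_le_mul_left _ hc2))
    _ = g ^ 2 * Y ^ (12 * s + 25) * (Mods (F + 1) Z g x ε).card := by ring
    _ ≤ g ^ 2 * (Y ^ F) ^ 2 * (Mods (F + 1) Z g x ε).card := by
        rw [← pow_mul]
        exact Nat.mul_le_mul_right _ (Nat.mul_le_mul_left _ (hpw _ _ (by omega)))
    _ ≤ _ := by
        rw [mul_pow]
        gcongr

end Pool.Agent.FS.AllLarge
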